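import Pool.Agent.Lib.MP_b5021c_nt.E1.Thw

/-!
# MP_b5021c_nt, stage 3, E1: flags

For a finite symmetric set `E` of non-zero vectors of a rational vector space, of rank `r ≥ 1`,
there are `r + 1` elements `β_k` of `E` (repetitions allowed) such that every hermitian
trigonometric polynomial `T` with exponents in `E ∪ {0}` and `T ≥ g` has
`T_0 ≥ g + ∑ |T_{β_k}|`.
-/

namespace Pool.Agent.B5.E1

open Submodule Module

variable {V : Type*} [AddCommGroup V] [Module ℚ V]

/-- Value of a trigonometric polynomial at a character. -/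
noncomputable def val (c : V →₀ ℂ) (χ : AddChar V Circle) : ℂ := c.sum fun v a => a * (χ v : ℂ)

/-- Hermitian. -/
def Herm (c : V →₀ ℂ) : Prop := ∀ v, c (-v) = (starRingEnd ℂ) (c v)

/-- The character `v ↦ exp(i t l(v))`. -/
noncomputable def chr (l : Dual ℚ V) (t : ℝ) : AddChar V Circle where
  toFun v := Circle.exp (t * (l v : ℚ))
  map_zero_eq_one' := by simp
  map_add_eq_mul' a b := by
    rw [map_add, Rat.cast_add, mul_add, Circle.exp_add]

theorem chr_apply (l : Dual ℚ V) (t : ℝ) (v : V) : chr l t v = Circle.exp (t * (l v : ℚ)) := rfl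

theorem exp_two_pi_int (n : ℤ) : Circle.exp (2 * Real.pi * n) = 1 := by
  rw [mul_comm]
  exact Circle.exp_int_mul_two_pi n

theorem exp_eq_one_iff {x : ℚ} : Circle.exp (2 * Real.pi * (x : ℝ)) = 1 ↔ ∃ n : ℤ, x = n := by
  constructor
  · intro h
    obtain ⟨n, hn⟩ := Circle.exp_eq_one.mp h
    refine ⟨n, ?_⟩
    have h2 : (x : ℝ) = n := by
      have : 2 * Real.pi * (x : ℝ) = 2 * Real.pi * n := by rw [hn]; ring
      exact mul_left_cancel₀ Real.two_pi_pos.ne' this
    exact_mod_cast h2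
  · rintro ⟨n, rfl⟩
    rw [Rat.cast_intCast]
    exact exp_two_pi_int n

/-- Geometric sums. -/
theorem geom_circle {ζ : Circle} {N : ℕ} (h1 : ζ ≠ 1) (hN : ζ ^ N = 1) :
    ∑ t ∈ Finset.range N, (ζ : ℂ) ^ t = 0 := by
  have h2 : (ζ : ℂ) ≠ 1 := by
    intro h
    exact h1 (Circle.ext (by rw [h, Circle.coe_one]))
  have h3 := geom_sum_mul (ζ : ℂ) N
  have h4 : (ζ : ℂ) ^ N = 1 := by
    rw [← Circle.coe_pow, hN, Circle.coe_one]
  rw [h4, sub_self] at h3
  exact (mul_eq_zero.mp h3).resolve_right (sub_ne_zero.mpr h2)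

open Classical in
/-- Averaging: the part with exponents in `{l ∈ ℤ}`. -/
theorem avg {c : V →₀ ℂ} {g : ℝ} (hT : ∀ χ, g ≤ (val c χ).re) (l : Dual ℚ V) :
    ∀ χ, g ≤ (val (c.filter fun v => ∃ n : ℤ, l v = n) χ).re := by
  intro χ
  set N : ℕ := ∏ v ∈ c.support, (l v).den with hN
  have hNpos : 0 < N := Finset.prod_pos fun v _ => (l v).den_pos
  have hNint : ∀ v ∈ c.support, ∃ m : ℤ, (N : ℚ) * l v = m := by
    intro v hv
    obtain ⟨k, hk⟩ : (l v).den ∣ N := Finset.dvd_prod_of_mem _ hv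
    refine ⟨k * (l v).num, ?_⟩
    rw [hk]
    push_cast
    have h1 : ((l v).den : ℚ) * l v = (l v).num := by
      rw [mul_comm]
      exact Rat.mul_den_eq_num (l v)
    calc ((l v).den : ℚ) * (k : ℚ) * l v = k * (((l v).den : ℚ) * l v) := by ring
      _ = _ := by rw [h1]
  let ψ : AddChar V Circle := chr l (2 * Real.pi)
  have hψN : ∀ v ∈ c.support, (ψ v) ^ N = 1 := by
    intro v hv
    obtain ⟨m, hm⟩ := hNint v hv
    show (Circle.exp (2 * Real.pi * ((l v : ℚ) : ℝ))) ^ N = 1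
    rw [← Circle.exp_nsmul]
    have h1 : N • (2 * Real.pi * ((l v : ℚ) : ℝ)) = 2 * Real.pi * (m : ℝ) := by
      rw [nsmul_eq_mul]
      have h2 : ((N : ℚ) * l v : ℚ) = m := hm
      have h3 : (N : ℝ) * ((l v : ℚ) : ℝ) = (m : ℝ) := by exact_mod_cast h2
      rw [← h3]; ring
    rw [h1]
    exact exp_two_pi_int m
  have hψ1 : ∀ v, ψ v = 1 ↔ ∃ n : ℤ, l v = n := fun v => exp_eq_one_iff
  have hsum : ∑ t ∈ Finset.range N, val c (χ * ψ ^ t) =
      N * val (c.filter fun v => ∃ n : ℤ, l v = n) χ := by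
    have h1 : ∀ t ∈ Finset.range N, val c (χ * ψ ^ t) =
        ∑ v ∈ c.support, c v * (χ v : ℂ) * (ψ v : ℂ) ^ t := by
      intro t _
      unfold val
      rw [Finsupp.sum]
      refine Finset.sum_congr rfl fun v _ => ?_
      rw [AddChar.mul_apply, AddChar.pow_apply, Circle.coe_mul, Circle.coe_pow]
      ring
    rw [Finset.sum_congr rfl h1, Finset.sum_comm]
    unfold val
    rw [Finsupp.sum, Finsupp.support_filter, Finset.sum_filter, Finset.mul_sum]
    refine Finset.sum_congr rfl fun v hv => ?_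
    rw [← Finset.mul_sum]
    by_cases h : ∃ n : ℤ, l v = n
    · rw [if_pos h, Finsupp.filter_apply_pos (fun v => ∃ n : ℤ, l v = n) c h]
      have h2 : (ψ v : ℂ) = 1 := by rw [(hψ1 v).mpr h, Circle.coe_one]
      rw [h2]
      simp only [one_pow, Finset.sum_const, Finset.card_range, nsmul_eq_mul, mul_one]
      ring
    · rw [if_neg h, geom_circle (fun h' => h ((hψ1 v).mp h')) (hψN v hv), mul_zero, mul_zero]
  have h2 : (N : ℝ) * g ≤ (N * val (c.filter fun v => ∃ n : ℤ, l v = n) χ).re := by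
    rw [← hsum, Complex.re_sum]
    calc (N : ℝ) * g = ∑ t ∈ Finset.range N, g := by
          rw [Finset.sum_const, Finset.card_range, nsmul_eq_mul]
      _ ≤ _ := Finset.sum_le_sum fun t _ => hT _
  have h3 : (N * val (c.filter fun v => ∃ n : ℤ, l v = n) χ).re =
      N * (val (c.filter fun v => ∃ n : ℤ, l v = n) χ).re := by
    rw [← Complex.ofReal_natCast, Complex.re_ofReal_mul]
  rw [h3] at h2
  exact le_of_mul_le_mul_left h2 (by exact_mod_cast hNpos)

omit [Module ℚ V] in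
theorem Herm.filter {c : V →₀ ℂ} (hc : Herm c) (p : V → Prop) [DecidablePred p]
    (hp : ∀ v, p v → p (-v)) : Herm (c.filter p) := by
  intro v
  by_cases h : p v
  · rw [Finsupp.filter_apply_pos _ _ h, Finsupp.filter_apply_pos _ _ (hp v h)]
    exact hc v
  · have h' : ¬ p (-v) := fun h' => h (by simpa using hp _ h')
    rw [Finsupp.filter_apply_neg _ _ h, Finsupp.filter_apply_neg _ _ h', map_zero]

theorem filter_congr' {V : Type*} {c : V →₀ ℂ} {p q : V → Prop} [DecidablePred p] [DecidablePred q]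
    (h : ∀ v ∈ c.support, p v ↔ q v) : c.filter p = c.filter q := by
  ext1 v
  rw [Finsupp.filter_apply, Finsupp.filter_apply]
  by_cases hv : v ∈ c.support
  · by_cases hp : p v
    · rw [if_pos hp, if_pos ((h v hv).mp hp)]
    · rw [if_neg hp, if_neg (fun hq => hp ((h v hv).mpr hq))]
  · rw [Finsupp.notMem_support_iff.mp hv]
    simp

open Classical in
/-- The part with exponents in a subspace. -/
theorem avg_sub {c : V →₀ ℂ} {g : ℝ} (hT : ∀ χ, g ≤ (val c χ).re) (U : Submodule ℚ V) :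
    ∀ χ, g ≤ (val (c.filter fun v => v ∈ U) χ).re := by
  let ι := {v : V // v ∈ c.support ∧ v ∉ U}
  have hfin : Finite ι :=
    Set.Finite.subset c.support.finite_toSet (fun v (hv : v ∈ c.support ∧ v ∉ U) => hv.1)
  obtain ⟨f, hf⟩ := Module.exists_dual_forall_apply_ne_zero (K := ℚ)
    (fun i : ι => U.mkQ i.1) (by
      rintro ⟨v, hv, hvU⟩ h
      exact hvU ((Submodule.Quotient.mk_eq_zero U).mp h))
  let l₁ : Dual ℚ V := f ∘ₗ U.mkQ
  set N : ℕ := (∑ v ∈ c.support, ⌈|l₁ v|⌉₊) + 1 with hN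
  have hNlt : ∀ v ∈ c.support, |l₁ v| < N := by
    intro v hv
    have h1 : |l₁ v| ≤ (⌈|l₁ v|⌉₊ : ℚ) := Nat.le_ceil _
    have h2 : ⌈|l₁ v|⌉₊ ≤ ∑ v ∈ c.support, ⌈|l₁ v|⌉₊ :=
      Finset.single_le_sum (f := fun v => ⌈|l₁ v|⌉₊) (fun _ _ => Nat.zero_le _) hv
    have h3 : ((⌈|l₁ v|⌉₊ : ℕ) : ℚ) < (N : ℚ) := by
      rw [hN]
      exact_mod_cast Nat.lt_succ_of_le h2
    exact lt_of_le_of_lt h1 h3
  have hNpos : (0 : ℚ) < N := by
    rw [hN]
    positivity
  set l : Dual ℚ V := (1 / (N : ℚ)) • l₁ with hl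
  have hlv : ∀ v, l v = l₁ v / N := fun v => by
    rw [hl, LinearMap.smul_apply, smul_eq_mul]
    ring
  have hiff : ∀ v ∈ c.support, (∃ n : ℤ, l v = n) ↔ v ∈ U := by
    intro v hv
    constructor
    · rintro ⟨n, hn⟩
      by_contra hvU
      have h1 : l₁ v ≠ 0 := hf ⟨v, hv, hvU⟩
      have h2 : |(n : ℚ)| < 1 := by
        rw [← hn, hlv, abs_div, abs_of_pos hNpos, div_lt_one hNpos]
        exact hNlt v hv
      have h3 : n = 0 := by
        have h4 : |n| < 1 := by exact_mod_cast h2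
        exact Int.abs_lt_one_iff.mp h4
      rw [h3, hlv, Int.cast_zero, div_eq_zero_iff] at hn
      rcases hn with hn | hn
      · exact h1 hn
      · exact hNpos.ne' hn
    · intro hvU
      refine ⟨0, ?_⟩
      have h1 : U.mkQ v = 0 := (Submodule.Quotient.mk_eq_zero U).mpr hvU
      have h2 : l₁ v = 0 := by
        show f (U.mkQ v) = 0
        rw [h1, map_zero]
      rw [hlv, h2]
      simp
  intro χ
  have h := avg hT l χ
  rwa [filter_congr' hiff] at h


/-- The flag property. -/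
def Flags (E : Set V) (m : ℕ) : Prop :=
  ∃ β : Fin m → V, (∀ i, β i ∈ E) ∧ ∀ (c : V →₀ ℂ) (g : ℝ), Herm c →
    (∀ v ∈ c.support, v ∈ E ∨ v = 0) → (∀ χ, g ≤ (val c χ).re) →
      g + ∑ i, ‖c (β i)‖ ≤ (c 0).re

omit [Module ℚ V] in
theorem val_re [IsAddTorsionFree V] {c : V →₀ ℂ} (hc : Herm c) {D : Finset V} (h0 : (0 : V) ∉ D)
    (hneg : ∀ d ∈ D, -d ∉ D) (hs : ∀ v ∈ c.support, v = 0 ∨ v ∈ D ∨ -v ∈ D)
    (χ : AddChar V Circle) :
    (val c χ).re = (c 0).re + 2 * ∑ d ∈ D, (c d * (χ d : ℂ)).re := by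
  classical
  set D' : Finset V := D.image Neg.neg with hD'
  have hdis : Disjoint D D' := by
    rw [Finset.disjoint_left]
    intro d hd hd'
    obtain ⟨x, hx, rfl⟩ := Finset.mem_image.mp hd'
    exact hneg x hx hd
  have h0' : (0 : V) ∉ D ∪ D' := by
    rw [Finset.mem_union, not_or]
    refine ⟨h0, fun h => ?_⟩
    obtain ⟨x, hx, hx0⟩ := Finset.mem_image.mp h
    rw [neg_eq_zero] at hx0
    exact h0 (hx0 ▸ hx)
  have hsub : c.support ⊆ insert 0 (D ∪ D') := by
    intro v hv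
    rw [Finset.mem_insert, Finset.mem_union]
    rcases hs v hv with h | h | h
    · exact Or.inl h
    · exact Or.inr (Or.inl h)
    · exact Or.inr (Or.inr (Finset.mem_image.mpr ⟨-v, h, neg_neg v⟩))
  have hval : val c χ = ∑ v ∈ insert 0 (D ∪ D'), c v * (χ v : ℂ) :=
    Finsupp.sum_of_support_subset c hsub (fun v a => a * (χ v : ℂ)) (fun _ _ => zero_mul _)
  rw [hval, Finset.sum_insert h0',
    Finset.sum_union hdis, hD', Finset.sum_image (fun x _ y _ h => neg_injective h)]
  rw [Complex.add_re, Complex.add_re, Complex.re_sum, Complex.re_sum]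
  have h1 : ∀ d ∈ D, (c (-d) * (χ (-d) : ℂ)).re = (c d * (χ d : ℂ)).re := by
    intro d _
    have h2 : (χ (-d) : ℂ) = (starRingEnd ℂ) (χ d : ℂ) := by
      rw [AddChar.map_neg_eq_inv, Circle.coe_inv_eq_conj]
    rw [hc d, h2, ← map_mul, Complex.conj_re]
  rw [Finset.sum_congr rfl h1]
  have h3 : (c 0 * (χ 0 : ℂ)).re = (c 0).re := by
    rw [AddChar.map_zero_eq_one, Circle.coe_one, mul_one]
  rw [h3]
  ring

theorem exists_rot' (z : ℂ) : ∃ w : Circle, z * (w : ℂ) = (‖z‖ : ℂ) := by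
  refine ⟨Circle.exp (-Complex.arg z), ?_⟩
  rw [Circle.coe_exp]
  nth_rewrite 1 [← Complex.norm_mul_exp_arg_mul_I z]
  rw [mul_assoc, ← Complex.exp_add]
  push_cast
  rw [neg_mul, add_neg_cancel, Complex.exp_zero, mul_one]

theorem exists_rot (z : ℂ) : ∃ w : Circle, z * (w : ℂ) = -(‖z‖ : ℂ) := by
  obtain ⟨w, hw⟩ := exists_rot' z
  refine ⟨w * Circle.exp Real.pi, ?_⟩
  rw [Circle.coe_mul, ← mul_assoc, hw, Circle.coe_exp, Complex.exp_pi_mul_I]
  ring

theorem exists_char (l : Dual ℚ V) {b : V} (hb : l b = 1) (w : Circle) :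
    ∃ t, chr l t b = w := by
  refine ⟨Complex.arg (w : ℂ), ?_⟩
  rw [chr_apply, hb, Rat.cast_one, mul_one, Circle.exp_arg]

theorem three_aux {x y r : ℝ} (_hr : 0 ≤ r) (h : r ^ 2 = x ^ 2 + y ^ 2) (hx : -r / 2 < x) :
    r ≤ x + √3 * |y| := by
  have h3 : √3 ^ 2 = 3 := Real.sq_sqrt (by norm_num)
  have h30 : 0 ≤ √3 := Real.sqrt_nonneg 3
  have hy : 0 ≤ |y| := abs_nonneg y
  have hy2 : |y| ^ 2 = y ^ 2 := sq_abs y
  rcases le_or_gt 0 x with hx0 | hx0
  · apply abs_le_of_sq_le_sq' _ (by positivity) |>.2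
    have h4 : (x + √3 * |y|) ^ 2 = x ^ 2 + √3 ^ 2 * |y| ^ 2 + 2 * (x * (√3 * |y|)) := by ring
    rw [h3, hy2] at h4
    rw [h4, h]
    have : 0 ≤ x * (√3 * |y|) := by positivity
    nlinarith [sq_nonneg y]
  · have h5 : 3 / 2 * r ≤ √3 * |y| := by
      apply abs_le_of_sq_le_sq' _ (by positivity) |>.2
      have h6 : (√3 * |y|) ^ 2 = 3 * y ^ 2 := by rw [mul_pow, h3, hy2]
      rw [h6]
      nlinarith
    linarith

theorem three_re (z : ℂ) :
    ∃ w : Circle, (w : ℂ).re ≤ -1/2 ∧ (z * (w : ℂ) ^ 2).re ≤ -‖z‖ / 2 := by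
  have hn : ‖z‖ ^ 2 = z.re ^ 2 + z.im ^ 2 := by
    rw [← Complex.normSq_eq_norm_sq, Complex.normSq_apply]; ring
  have h3 : √3 ^ 2 = 3 := Real.sq_sqrt (by norm_num)
  rcases le_or_gt z.re (-‖z‖ / 2) with h | h
  · refine ⟨Circle.exp Real.pi, ?_, ?_⟩
    · rw [Circle.coe_exp, Complex.exp_pi_mul_I]; norm_num
    · rw [Circle.coe_exp, Complex.exp_pi_mul_I]
      simpa using h
  · have h1 := three_aux (norm_nonneg z) hn h
    have hcos : Real.cos (2 * Real.pi / 3) = -1 / 2 := by
      have : 2 * Real.pi / 3 = Real.pi - Real.pi / 3 := by ring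
      rw [this, Real.cos_pi_sub, Real.cos_pi_div_three]; norm_num
    have hsin : Real.sin (2 * Real.pi / 3) = √3 / 2 := by
      have : 2 * Real.pi / 3 = Real.pi - Real.pi / 3 := by ring
      rw [this, Real.sin_pi_sub, Real.sin_pi_div_three]
    have hgen : ∀ w : Circle, (w : ℂ).re = -1 / 2 → (w : ℂ).im ^ 2 = 3 / 4 →
        (z * (w : ℂ) ^ 2).re = -z.re / 2 + z.im * (w : ℂ).im := by
      intro w hw1 hw2
      rw [sq, Complex.mul_re, Complex.mul_re, Complex.mul_im, hw1]
      have : (w : ℂ).im * (w : ℂ).im = 3 / 4 := by rw [← sq]; exact hw2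
      rw [this]
      ring
    rcases le_total 0 z.im with hy | hy
    · -- `w = exp(-2πi/3)`
      have hre : ((Circle.exp (-(2 * Real.pi / 3)) : Circle) : ℂ).re = -1 / 2 := by
        rw [Circle.coe_exp, Complex.exp_ofReal_mul_I_re, Real.cos_neg, hcos]
      have him : ((Circle.exp (-(2 * Real.pi / 3)) : Circle) : ℂ).im = -(√3 / 2) := by
        rw [Circle.coe_exp, Complex.exp_ofReal_mul_I_im, Real.sin_neg, hsin]
      refine ⟨_, hre.le, ?_⟩
      rw [hgen _ hre (by rw [him, neg_sq, div_pow, h3]; norm_num), him]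
      rw [abs_of_nonneg hy] at h1
      linarith
    · have hre : ((Circle.exp (2 * Real.pi / 3) : Circle) : ℂ).re = -1 / 2 := by
        rw [Circle.coe_exp, Complex.exp_ofReal_mul_I_re, hcos]
      have him : ((Circle.exp (2 * Real.pi / 3) : Circle) : ℂ).im = √3 / 2 := by
        rw [Circle.coe_exp, Complex.exp_ofReal_mul_I_im, hsin]
      refine ⟨_, hre.le, ?_⟩
      rw [hgen _ hre (by rw [him, div_pow, h3]; norm_num), him]
      rw [abs_of_nonpos hy] at h1
      linarith

/-- Three angles. -/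
theorem three_angles (z₁ z₂ z₃ : ℂ) : ∃ w₁ w₂ : Circle,
    2 * ((z₁ * (w₁ : ℂ)).re + (z₂ * (w₂ : ℂ)).re + (z₃ * ((w₁ : ℂ) * (w₂ : ℂ))).re) ≤
      -(‖z₁‖ + ‖z₂‖ + ‖z₃‖) := by
  obtain ⟨u₁, hu₁⟩ := exists_rot' z₁
  obtain ⟨u₂, hu₂⟩ := exists_rot' z₂
  obtain ⟨w, hw, hw2⟩ := three_re (z₃ * ((u₁ : ℂ) * (u₂ : ℂ)))
  refine ⟨u₁ * w, u₂ * w, ?_⟩
  have h1 : (z₁ * ((u₁ * w : Circle) : ℂ)).re = ‖z₁‖ * (w : ℂ).re := by
    rw [Circle.coe_mul, ← mul_assoc, hu₁, Complex.re_ofReal_mul]
  have h2 : (z₂ * ((u₂ * w : Circle) : ℂ)).re = ‖z₂‖ * (w : ℂ).re := by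
    rw [Circle.coe_mul, ← mul_assoc, hu₂, Complex.re_ofReal_mul]
  have h3 : z₃ * (((u₁ * w : Circle) : ℂ) * ((u₂ * w : Circle) : ℂ)) =
      z₃ * ((u₁ : ℂ) * (u₂ : ℂ)) * (w : ℂ) ^ 2 := by
    rw [Circle.coe_mul, Circle.coe_mul]; ring
  have h4 : ‖z₃ * ((u₁ : ℂ) * (u₂ : ℂ))‖ = ‖z₃‖ := by
    rw [norm_mul, norm_mul, Circle.norm_coe, Circle.norm_coe, mul_one, mul_one]
  rw [h1, h2, h3]
  rw [h4] at hw2
  have h5 := mul_le_mul_of_nonneg_left hw (norm_nonneg z₁)
  have h6 := mul_le_mul_of_nonneg_left hw (norm_nonneg z₂)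
  linarith


theorem tf : IsAddTorsionFree V := by
  refine ⟨fun n hn a b h => ?_⟩
  have h1 : (n : ℚ) • a = (n : ℚ) • b := by
    have h2 : n • a = n • b := h
    rw [← Nat.cast_smul_eq_nsmul ℚ, ← Nat.cast_smul_eq_nsmul ℚ] at h2
    exact h2
  exact smul_right_injective V (r := (n : ℚ)) (by exact_mod_cast hn) h1

theorem neg_ne_self {v : V} (hv : v ≠ 0) : -v ≠ v := by
  intro h
  apply hv
  have h1 : (2 : ℚ) • v = 0 := by
    rw [two_smul]
    nth_rewrite 1 [← h]
    exact neg_add_cancel v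
  exact (smul_eq_zero.mp h1).resolve_left two_ne_zero

open Classical in
/-- Rank one. -/
theorem flags_one {E : Set V} (hE : E.Finite) (h1 : finrank ℚ (span ℚ E) = 1) : Flags E 2 := by
  have := tf (V := V)
  have : FiniteDimensional ℚ (span ℚ E) := FiniteDimensional.span_of_finite ℚ hE
  obtain ⟨v₀, hv₀, hv₀0⟩ : ∃ v ∈ E, v ≠ 0 := by
    by_contra hcon
    push Not at hcon
    have h2 : span ℚ E = ⊥ := by
      rw [Submodule.span_eq_bot]
      exact hcon
    rw [h2, finrank_bot] at h1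
    omega
  obtain ⟨f, hf, -⟩ := Submodule.exists_le_ker_of_notMem (p := (⊥ : Submodule ℚ V)) (v := v₀)
    (fun h => hv₀0 ((mem_bot ℚ).mp h))
  obtain ⟨b, hb, hbmax⟩ := Set.exists_max_image E (fun v => |f v|) hE ⟨v₀, hv₀⟩
  have hfb : f b ≠ 0 := by
    intro h
    have := hbmax v₀ hv₀
    rw [h, abs_zero] at this
    exact hf (abs_eq_zero.mp (le_antisymm this (abs_nonneg _)))
  have hb0 : b ≠ 0 := by
    rintro rfl
    exact hfb (map_zero f)
  set l : Dual ℚ V := (f b)⁻¹ • f with hl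
  have hlb : l b = 1 := by rw [hl, LinearMap.smul_apply, smul_eq_mul, inv_mul_cancel₀ hfb]
  have hlE : ∀ v ∈ E, |l v| ≤ 1 := by
    intro v hv
    rw [hl, LinearMap.smul_apply, smul_eq_mul, abs_mul, abs_inv, inv_mul_le_one₀ (abs_pos.mpr hfb)]
    exact hbmax v hv
  have hline : ∀ v ∈ E, v = l v • b := by
    intro v hv
    have h2 : (⟨b, subset_span hb⟩ : span ℚ E) ≠ 0 := by
      intro h
      exact hb0 (congrArg Subtype.val h)
    obtain ⟨c, hc⟩ := (finrank_eq_one_iff_of_nonzero' _ h2).mp h1 ⟨v, subset_span hv⟩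
    have h3 : c • b = v := congrArg Subtype.val hc
    rw [← h3, map_smul, hlb, smul_eq_mul, mul_one]
  refine ⟨fun _ => b, fun _ => hb, ?_⟩
  intro c g hc hs hT
  set p : V → Prop := fun v => ∃ n : ℤ, l v = n with hp
  have hT' := avg hT l
  have hc' : Herm (c.filter p) := hc.filter p (by
    rintro v ⟨n, hn⟩
    exact ⟨-n, by rw [map_neg, hn]; push_cast; ring⟩)
  have hsupp : ∀ v ∈ (c.filter p).support, v = 0 ∨ v ∈ ({b} : Finset V) ∨
      -v ∈ ({b} : Finset V) := by
    intro v hv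
    rw [Finsupp.support_filter, Finset.mem_filter] at hv
    obtain ⟨hv, n, hn⟩ := hv
    rcases hs v hv with h | h
    · have h4 := hlE v h
      rw [hn] at h4
      have h5 : |n| ≤ 1 := by exact_mod_cast h4
      have h6 := hline v h
      rw [hn] at h6
      rcases abs_le.mp h5 with ⟨h7, h8⟩
      interval_cases n
      · right; right
        rw [Finset.mem_singleton, h6]
        simp
      · left
        rw [h6]; simp
      · right; left
        rw [Finset.mem_singleton, h6]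
        simp
    · exact Or.inl h
  obtain ⟨w, hw⟩ := exists_rot (c b)
  obtain ⟨t, ht⟩ := exists_char l hlb w
  have h2 := hT' (chr l t)
  rw [val_re hc' (D := {b}) (by simpa using hb0.symm) (by
    intro d hd
    rw [Finset.mem_singleton] at hd ⊢
    rw [hd]
    exact neg_ne_self hb0) hsupp, Finset.sum_singleton, ht] at h2
  have h3 : (c.filter p) b = c b := Finsupp.filter_apply_pos p c ⟨1, by rw [hlb]; simp⟩
  have h4 : (c.filter p) 0 = c 0 := Finsupp.filter_apply_pos p c ⟨0, by rw [map_zero]; simp⟩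
  rw [h3, h4, hw] at h2
  rw [Fin.sum_univ_two]
  have h5 : (-(‖c b‖ : ℂ)).re = -‖c b‖ := by simp
  rw [h5] at h2
  linarith


/-- The determinant attached to two functionals. -/
def det2 (l₁ l₂ : Dual ℚ V) (x y : V) : ℚ := l₁ x * l₂ y - l₁ y * l₂ x

open Classical in
/-- Rank two, the core: `a, b` with maximal determinant, `a - b` not an exponent. -/
theorem flags_two_core {E : Set V} (hsym : ∀ v ∈ E, -v ∈ E) {l₁ l₂ : Dual ℚ V}
    (hsep : ∀ v ∈ span ℚ E, l₁ v = 0 → l₂ v = 0 → v = 0) {a b : V} (ha : a ∈ E) (hb : b ∈ E)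
    (hD : det2 l₁ l₂ a b ≠ 0)
    (hmax : ∀ x ∈ E, ∀ y ∈ E, |det2 l₁ l₂ x y| ≤ |det2 l₁ l₂ a b|)
    (hab : a - b ∉ E) : Flags E 3 := by
  have := tf (V := V)
  set D := det2 l₁ l₂ a b with hDdef
  have haW : a ∈ span ℚ E := subset_span ha
  have hbW : b ∈ span ℚ E := subset_span hb
  -- dual functionals
  set m₁ : Dual ℚ V := D⁻¹ • (l₂ b • l₁ - l₁ b • l₂) with hm₁
  set m₂ : Dual ℚ V := D⁻¹ • (l₁ a • l₂ - l₂ a • l₁) with hm₂
  have hm₁v : ∀ v, m₁ v = det2 l₁ l₂ v b / D := fun v => by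
    rw [hm₁]
    simp only [LinearMap.smul_apply, LinearMap.sub_apply, smul_eq_mul, det2]
    field_simp
  have hm₂v : ∀ v, m₂ v = det2 l₁ l₂ a v / D := fun v => by
    rw [hm₂]
    simp only [LinearMap.smul_apply, LinearMap.sub_apply, smul_eq_mul, det2]
    field_simp
  have hm₁a : m₁ a = 1 := by rw [hm₁v, ← hDdef, div_self hD]
  have hm₁b : m₁ b = 0 := by rw [hm₁v]; simp [det2]
  have hm₂a : m₂ a = 0 := by rw [hm₂v]; simp [det2]
  have hm₂b : m₂ b = 1 := by rw [hm₂v, ← hDdef, div_self hD]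
  have hcoord : ∀ v ∈ span ℚ E, v = m₁ v • a + m₂ v • b := by
    intro v hv
    have h1 : v - (m₁ v • a + m₂ v • b) ∈ span ℚ E :=
      sub_mem hv (add_mem (smul_mem _ _ haW) (smul_mem _ _ hbW))
    have hgen : ∀ l : Dual ℚ V, l v * D = det2 l₁ l₂ v b * l a + det2 l₁ l₂ a v * l b →
        l (v - (m₁ v • a + m₂ v • b)) = 0 := by
      intro l h
      rw [map_sub, map_add, map_smul, map_smul, hm₁v, hm₂v, smul_eq_mul, smul_eq_mul]
      have : l v = (det2 l₁ l₂ v b * l a + det2 l₁ l₂ a v * l b) / D := by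
        rw [← h]; field_simp
      rw [this]
      ring
    have h2 : l₁ (v - (m₁ v • a + m₂ v • b)) = 0 :=
      hgen l₁ (by rw [hDdef]; simp only [det2]; ring)
    have h3 : l₂ (v - (m₁ v • a + m₂ v • b)) = 0 :=
      hgen l₂ (by rw [hDdef]; simp only [det2]; ring)
    exact sub_eq_zero.mp (hsep _ h1 h2 h3)
  have hm₁E : ∀ v ∈ E, |m₁ v| ≤ 1 := by
    intro v hv
    rw [hm₁v, abs_div, div_le_one (abs_pos.mpr hD)]
    exact hmax v hv b hb
  have hm₂E : ∀ v ∈ E, |m₂ v| ≤ 1 := by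
    intro v hv
    rw [hm₂v, abs_div, div_le_one (abs_pos.mpr hD)]
    exact hmax a ha v hv
  have ha0 : a ≠ 0 := by
    rintro rfl
    rw [map_zero] at hm₁a
    exact zero_ne_one hm₁a
  have hb0 : b ≠ 0 := by
    rintro rfl
    rw [map_zero] at hm₂b
    exact zero_ne_one hm₂b
  have hab0 : a + b ≠ 0 := by
    intro h
    have : m₁ (a + b) = 0 := by rw [h, map_zero]
    rw [map_add, hm₁a, hm₁b] at this
    norm_num at this
  have hba : b - a ∉ E := by
    intro h
    have := hsym _ h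
    rw [neg_sub] at this
    exact hab this
  -- distinctness facts by coordinates
  have hne : ∀ x y : V, (m₁ x ≠ m₁ y ∨ m₂ x ≠ m₂ y) → x ≠ y := by
    rintro x y h rfl
    simp at h
  have key : ∀ (c : V →₀ ℂ) (g : ℝ), Herm c → (∀ v ∈ c.support, v ∈ E ∨ v = 0) →
      (∀ χ, g ≤ (val c χ).re) → ∀ w₁ w₂ : Circle,
        g ≤ (c 0).re + 2 * ((c a * (w₁ : ℂ)).re + (c b * (w₂ : ℂ)).re +
          (c (a + b) * ((w₁ : ℂ) * (w₂ : ℂ))).re) := by
    intro c g hc hs hT w₁ w₂
    set p₁ : V → Prop := fun v => ∃ n : ℤ, m₁ v = n with hp₁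
    set p₂ : V → Prop := fun v => ∃ n : ℤ, m₂ v = n with hp₂
    have hT₁ := avg hT m₁
    have hT₂ := avg hT₁ m₂
    set c' := c.filter p₁ with hc'
    set c'' := c'.filter p₂ with hc''
    have hherm₁ : Herm c' := hc.filter p₁ (by
      rintro v ⟨n, hn⟩
      exact ⟨-n, by rw [map_neg, hn]; push_cast; ring⟩)
    have hherm₂ : Herm c'' := hherm₁.filter p₂ (by
      rintro v ⟨n, hn⟩
      exact ⟨-n, by rw [map_neg, hn]; push_cast; ring⟩)
    have hval : ∀ v, p₁ v → p₂ v → c'' v = c v := fun v h1 h2 => by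
      rw [hc'', Finsupp.filter_apply_pos p₂ c' h2, hc', Finsupp.filter_apply_pos p₁ c h1]
    have hsupp : ∀ v ∈ c''.support, v = 0 ∨ v ∈ ({a, b, a + b} : Finset V) ∨
        -v ∈ ({a, b, a + b} : Finset V) := by
      intro v hv
      rw [hc'', Finsupp.support_filter, Finset.mem_filter, hc', Finsupp.support_filter,
        Finset.mem_filter] at hv
      obtain ⟨⟨hv, n, hn⟩, k, hk⟩ := hv
      rcases hs v hv with h | h
      · have h4 := hm₁E v h
        have h5 := hm₂E v h
        rw [hn] at h4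
        rw [hk] at h5
        have h6 : |n| ≤ 1 := by exact_mod_cast h4
        have h7 : |k| ≤ 1 := by exact_mod_cast h5
        have h8 := hcoord v (subset_span h)
        rw [hn, hk] at h8
        obtain ⟨h9, h10⟩ := abs_le.mp h6
        obtain ⟨h11, h12⟩ := abs_le.mp h7
        interval_cases n <;> interval_cases k
        · right; right
          simp only [Finset.mem_insert, Finset.mem_singleton]
          right; right
          rw [h8]; push_cast; module
        · right; right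
          simp only [Finset.mem_insert, Finset.mem_singleton]
          left
          rw [h8]; push_cast; module
        · exfalso
          apply hba
          have : v = b - a := by rw [h8]; push_cast; module
          exact this ▸ h
        · right; right
          simp only [Finset.mem_insert, Finset.mem_singleton]
          right; left
          rw [h8]; push_cast; module
        · left
          rw [h8]; push_cast; module
        · right; left
          simp only [Finset.mem_insert, Finset.mem_singleton]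
          right; left
          rw [h8]; push_cast; module
        · exfalso
          apply hab
          have : v = a - b := by rw [h8]; push_cast; module
          exact this ▸ h
        · right; left
          simp only [Finset.mem_insert, Finset.mem_singleton]
          left
          rw [h8]; push_cast; module
        · right; left
          simp only [Finset.mem_insert, Finset.mem_singleton]
          right; right
          rw [h8]; push_cast; module
      · exact Or.inl h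
    obtain ⟨t₁, ht₁⟩ := exists_char m₁ hm₁a w₁
    obtain ⟨t₂, ht₂⟩ := exists_char m₂ hm₂b w₂
    have h1 := hT₂ (chr m₁ t₁ * chr m₂ t₂)
    have h0D : (0 : V) ∉ ({a, b, a + b} : Finset V) := by
      simp only [Finset.mem_insert, Finset.mem_singleton, not_or]
      exact ⟨ha0.symm, hb0.symm, hab0.symm⟩
    have hnegD : ∀ d ∈ ({a, b, a + b} : Finset V), -d ∉ ({a, b, a + b} : Finset V) := by
      intro d hd
      simp only [Finset.mem_insert, Finset.mem_singleton] at hd ⊢
      simp only [not_or]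
      rcases hd with rfl | rfl | rfl
      · refine ⟨hne _ _ ?_, hne _ _ ?_, hne _ _ ?_⟩ <;>
          simp only [map_neg, map_add, hm₁a, hm₁b, hm₂a, hm₂b] <;> norm_num
      · refine ⟨hne _ _ ?_, hne _ _ ?_, hne _ _ ?_⟩ <;>
          simp only [map_neg, map_add, hm₁a, hm₁b, hm₂a, hm₂b] <;> norm_num
      · refine ⟨hne _ _ ?_, hne _ _ ?_, hne _ _ ?_⟩ <;>
          simp only [map_neg, map_add, hm₁a, hm₁b, hm₂a, hm₂b] <;> norm_num
    rw [val_re hherm₂ h0D hnegD hsupp] at h1
    have hane : a ≠ b := hne _ _ (by rw [hm₁a, hm₁b]; left; norm_num)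
    have haab : a ≠ a + b := hne _ _ (by rw [map_add, map_add, hm₂a, hm₂b]; right; norm_num)
    have hbab : b ≠ a + b := hne _ _ (by rw [map_add, map_add, hm₁a, hm₁b]; left; norm_num)
    rw [Finset.sum_insert (by
        simp only [Finset.mem_insert, Finset.mem_singleton, not_or]; exact ⟨hane, haab⟩),
      Finset.sum_insert (by simp only [Finset.mem_singleton]; exact hbab),
      Finset.sum_singleton] at h1
    have e0 : c'' 0 = c 0 := hval 0 ⟨0, by simp⟩ ⟨0, by simp⟩
    have e1 : c'' a = c a := hval a ⟨1, by rw [hm₁a]; simp⟩ ⟨0, by rw [hm₂a]; simp⟩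
    have e2 : c'' b = c b := hval b ⟨0, by rw [hm₁b]; simp⟩ ⟨1, by rw [hm₂b]; simp⟩
    have e3 : c'' (a + b) = c (a + b) :=
      hval _ ⟨1, by rw [map_add, hm₁a, hm₁b]; simp⟩ ⟨1, by rw [map_add, hm₂a, hm₂b]; simp⟩
    have f1 : (chr m₁ t₁ * chr m₂ t₂) a = w₁ := by
      rw [AddChar.mul_apply, ht₁]
      have : chr m₂ t₂ a = 1 := by rw [chr_apply, hm₂a]; simp
      rw [this, mul_one]
    have f2 : (chr m₁ t₁ * chr m₂ t₂) b = w₂ := by
      rw [AddChar.mul_apply, ht₂]
      have : chr m₁ t₁ b = 1 := by rw [chr_apply, hm₁b]; simp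
      rw [this, one_mul]
    have f3 : (chr m₁ t₁ * chr m₂ t₂) (a + b) = w₁ * w₂ := by
      rw [AddChar.map_add_eq_mul, f1, f2]
    rw [e0, e1, e2, e3, f1, f2, f3, Circle.coe_mul] at h1
    linarith
  by_cases habE : a + b ∈ E
  · refine ⟨![a, b, a + b], ?_, ?_⟩
    · intro i
      fin_cases i
      · exact ha
      · exact hb
      · exact habE
    · intro c g hc hs hT
      obtain ⟨w₁, w₂, hw⟩ := three_angles (c a) (c b) (c (a + b))
      have h1 := key c g hc hs hT w₁ w₂
      rw [Fin.sum_univ_three]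
      simp only [Matrix.cons_val_zero, Matrix.cons_val_one, Matrix.cons_val_two, Matrix.head_cons,
        Matrix.tail_cons]
      linarith
  · refine ⟨![a, b, a], ?_, ?_⟩
    · intro i
      fin_cases i
      · exact ha
      · exact hb
      · exact ha
    · intro c g hc hs hT
      have h0 : c (a + b) = 0 := by
        by_contra hcon
        rcases hs _ (Finsupp.mem_support_iff.mpr hcon) with h | h
        · exact habE h
        · exact hab0 h
      obtain ⟨w₁, hw₁⟩ := exists_rot (c a)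
      obtain ⟨w₂, hw₂⟩ := exists_rot (c b)
      have h1 := key c g hc hs hT w₁ w₂
      rw [h0, hw₁, hw₂, zero_mul] at h1
      rw [Fin.sum_univ_three]
      simp only [Matrix.cons_val_zero, Matrix.cons_val_one, Matrix.cons_val_two, Matrix.head_cons,
        Matrix.tail_cons]
      have h5 : (-(‖c a‖ : ℂ)).re = -‖c a‖ := by simp
      have h6 : (-(‖c b‖ : ℂ)).re = -‖c b‖ := by simp
      rw [h5, h6, Complex.zero_re] at h1
      have := norm_nonneg (c b)
      linarith


/-- Rank two. -/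
theorem flags_two {E : Set V} (hE : E.Finite) (hsym : ∀ v ∈ E, -v ∈ E)
    (h2 : finrank ℚ (span ℚ E) = 2) : Flags E 3 := by
  have : FiniteDimensional ℚ (span ℚ E) := FiniteDimensional.span_of_finite ℚ hE
  set W := span ℚ E with hW
  let B : Basis (Fin 2) ℚ W := finBasisOfFinrankEq ℚ W h2
  obtain ⟨l₁, hl₁⟩ := LinearMap.exists_extend (B.coord 0)
  obtain ⟨l₂, hl₂⟩ := LinearMap.exists_extend (B.coord 1)
  have hl₁' : ∀ (v : V) (hv : v ∈ W), l₁ v = B.coord 0 ⟨v, hv⟩ := fun v hv => by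
    rw [← hl₁]; rfl
  have hl₂' : ∀ (v : V) (hv : v ∈ W), l₂ v = B.coord 1 ⟨v, hv⟩ := fun v hv => by
    rw [← hl₂]; rfl
  have hsep : ∀ v ∈ W, l₁ v = 0 → l₂ v = 0 → v = 0 := by
    intro v hv h1 h2
    rw [hl₁' v hv] at h1
    rw [hl₂' v hv] at h2
    have h3 : (⟨v, hv⟩ : W) = 0 := by
      apply B.ext_elem
      intro i
      fin_cases i
      · simpa using h1
      · simpa using h2
    exact congrArg Subtype.val h3
  -- a pair with non-zero determinant
  obtain ⟨x₀, hx₀, y₀, hy₀, hxy₀⟩ : ∃ x ∈ E, ∃ y ∈ E, det2 l₁ l₂ x y ≠ 0 := by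
    by_contra hcon
    push Not at hcon
    have h3 : ∀ x ∈ E, ∀ y ∈ W, det2 l₁ l₂ x y = 0 := by
      intro x hx y hy
      have h4 : W ≤ LinearMap.ker (l₁ x • l₂ - l₂ x • l₁) := by
        refine span_le.mpr fun z hz => ?_
        show (l₁ x • l₂ - l₂ x • l₁) z = 0
        have := hcon x hx z hz
        simp only [LinearMap.sub_apply, LinearMap.smul_apply, smul_eq_mul, det2] at this ⊢
        linarith
      have h5 : (l₁ x • l₂ - l₂ x • l₁) y = 0 := h4 hy
      simp only [LinearMap.sub_apply, LinearMap.smul_apply, smul_eq_mul, det2] at h5 ⊢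
      linarith
    have h6 : ∀ x ∈ W, ∀ y ∈ W, det2 l₁ l₂ x y = 0 := by
      intro x hx y hy
      have h4 : W ≤ LinearMap.ker (l₂ y • l₁ - l₁ y • l₂) := by
        refine span_le.mpr fun z hz => ?_
        show (l₂ y • l₁ - l₁ y • l₂) z = 0
        have := h3 z hz y hy
        simp only [LinearMap.sub_apply, LinearMap.smul_apply, smul_eq_mul, det2] at this ⊢
        linarith
      have h5 : (l₂ y • l₁ - l₁ y • l₂) x = 0 := h4 hx
      simp only [LinearMap.sub_apply, LinearMap.smul_apply, smul_eq_mul, det2] at h5 ⊢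
      linarith
    have h7 := h6 (B 0) (B 0).2 (B 1) (B 1).2
    rw [det2, hl₁' _ (B 0).2, hl₁' _ (B 1).2, hl₂' _ (B 0).2, hl₂' _ (B 1).2] at h7
    simp at h7
  obtain ⟨⟨a, b⟩, ⟨ha, hb⟩, hmax⟩ := Set.exists_max_image (E ×ˢ E)
    (fun p => |det2 l₁ l₂ p.1 p.2|) (hE.prod hE) ⟨(x₀, y₀), hx₀, hy₀⟩
  have ha' : a ∈ E := ha
  have hb' : b ∈ E := hb
  have hmax' : ∀ x ∈ E, ∀ y ∈ E, |det2 l₁ l₂ x y| ≤ |det2 l₁ l₂ a b| :=
    fun x hx y hy => hmax (x, y) ⟨hx, hy⟩
  have hD : det2 l₁ l₂ a b ≠ 0 := by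
    intro h
    have := hmax' x₀ hx₀ y₀ hy₀
    rw [h, abs_zero] at this
    exact hxy₀ (abs_eq_zero.mp (le_antisymm this (abs_nonneg _)))
  by_cases hab : a - b ∈ E
  · -- use `(a, -b)`
    have hdet : det2 l₁ l₂ a (-b) = - det2 l₁ l₂ a b := by
      simp only [det2, map_neg]; ring
    have habE : a - -b ∉ E := by
      rw [sub_neg_eq_add]
      intro h
      have h3 := hmax' (a + b) h (a - b) hab
      have h4 : det2 l₁ l₂ (a + b) (a - b) = -2 * det2 l₁ l₂ a b := by
        simp only [det2, map_add, map_sub]; ring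
      rw [h4, abs_mul] at h3
      have h5 : |(-2 : ℚ)| = 2 := by norm_num
      rw [h5] at h3
      have := abs_pos.mpr hD
      linarith
    refine flags_two_core hsym hsep ha' (hsym b hb') (by rw [hdet]; exact neg_ne_zero.mpr hD)
      ?_ habE
    intro x hx y hy
    rw [hdet, abs_neg]
    exact hmax' x hx y hy
  · exact flags_two_core hsym hsep ha' hb' hD hmax' hab

/-- Theorem W for the span of a finite set. -/
theorem thw_rel {E : Set V} (hE : E.Finite) (h3 : 3 ≤ finrank ℚ (span ℚ E)) :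
    ∃ A B : Submodule ℚ V, Disjoint A B ∧ span ℚ (E ∩ A) = A ∧ span ℚ (E ∩ B) = B ∧
      1 ≤ finrank ℚ A ∧ 1 ≤ finrank ℚ B ∧ finrank ℚ A + finrank ℚ B + 1 = finrank ℚ (span ℚ E) ∧
      ∀ s ∈ E, s ∈ A ⊔ B → s ∈ A ∨ s ∈ B := by
  have hfd : FiniteDimensional ℚ (span ℚ E) := FiniteDimensional.span_of_finite ℚ hE
  set W := span ℚ E with hW
  let S : Set W := Subtype.val ⁻¹' E
  have hS : S.Finite := hE.preimage Subtype.val_injective.injOn
  have hSspan : span ℚ S = ⊤ := by
    rw [eq_top_iff]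
    rintro ⟨x, hx⟩ -
    have h1 : (span ℚ S).map W.subtype = W := by
      rw [Submodule.map_span]
      congr 1
      ext y
      constructor
      · rintro ⟨z, hz, rfl⟩
        exact hz
      · intro hy
        exact ⟨⟨y, subset_span hy⟩, hy, rfl⟩
    have h2 : x ∈ (span ℚ S).map W.subtype := by rw [h1]; exact hx
    obtain ⟨z, hz, hzx⟩ := h2
    have : z = ⟨x, hx⟩ := Subtype.ext hzx
    exact this ▸ hz
  obtain ⟨A, B, hdis, hA, hB, hBne, hAodd, hdim, hcov⟩ := thw hS hSspan h3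
  have hsp : ∀ C : Submodule ℚ W, span ℚ (S ∩ C) = C →
      span ℚ (E ∩ (C.map W.subtype : Submodule ℚ V)) = C.map W.subtype := by
    intro C hC
    apply le_antisymm
    · exact span_le.mpr fun x hx => hx.2
    · rintro _ ⟨z, hz, rfl⟩
      have h1 : z ∈ span ℚ (S ∩ C) := by rw [hC]; exact hz
      have h2 : W.subtype z ∈ (span ℚ (S ∩ C)).map W.subtype := mem_map_of_mem h1
      rw [Submodule.map_span] at h2
      refine (span_mono ?_) h2
      rintro _ ⟨y, hy, rfl⟩
      exact ⟨hy.1, y, hy.2, rfl⟩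
  have hfr : ∀ C : Submodule ℚ W, finrank ℚ (C.map W.subtype) = finrank ℚ C := fun C =>
    Submodule.finrank_map_subtype_eq W C
  have hinj : Function.Injective W.subtype := W.injective_subtype
  refine ⟨A.map W.subtype, B.map W.subtype, ?_, hsp A hA, hsp B hB, ?_, ?_, ?_, ?_⟩
  · rw [Submodule.disjoint_def]
    rintro _ ⟨x, hx, rfl⟩ ⟨y, hy, hxy⟩
    have : y = x := hinj hxy
    rw [Submodule.disjoint_def] at hdis
    rw [hdis x hx (this ▸ hy), map_zero]
  · rw [hfr]
    exact hAodd.pos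
  · rw [hfr]
    have h1 : finrank ℚ B ≠ 0 := by
      intro h
      exact hBne (Submodule.finrank_eq_zero.mp h)
    omega
  · rw [hfr, hfr]
    exact hdim
  · intro s hs hsm
    rw [← Submodule.map_sup] at hsm
    obtain ⟨z, hz, rfl⟩ := hsm
    rcases hcov z hs hz with h | h
    · exact Or.inl ⟨z, h, rfl⟩
    · exact Or.inr ⟨z, h, rfl⟩

/-- A pair of independent characters. -/
theorem join_char {A B : Submodule ℚ V} (hdis : Disjoint A B) (χ χ' : AddChar V Circle) :
    ∃ φ : AddChar V Circle, (∀ v ∈ A, φ v = χ v) ∧ ∀ v ∈ B, φ v = χ' v := by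
  obtain ⟨C, hBC, hC⟩ : ∃ C, B ≤ C ∧ IsCompl A C := by
    obtain ⟨D, hD⟩ := (A ⊔ B).exists_isCompl
    refine ⟨B ⊔ D, le_sup_left, ?_⟩
    constructor
    · rw [Submodule.disjoint_def]
      intro x hxA hx
      obtain ⟨b, hb, d, hd, rfl⟩ := mem_sup.mp hx
      have h1 : d ∈ A ⊔ B := by
        have : d = (b + d) - b := by abel
        rw [this]
        exact sub_mem (mem_sup_left hxA) (mem_sup_right hb)
      have h2 : d = 0 := (Submodule.disjoint_def.mp hD.disjoint) d h1 hd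
      rw [h2, add_zero] at hxA ⊢
      exact (Submodule.disjoint_def.mp hdis) b hxA hb
    · rw [codisjoint_iff, ← sup_assoc]
      exact hD.sup_eq_top
  let pr : V →ₗ[ℚ] V := A.subtype ∘ₗ (A.projectionOnto C hC)
  have hprA : ∀ v ∈ A, pr v = v := by
    intro v hv
    show ((A.projectionOnto C hC v : A) : V) = v
    exact congrArg Subtype.val (Submodule.projectionOnto_apply_left hC ⟨v, hv⟩)
  have hprC : ∀ v ∈ C, pr v = 0 := by
    intro v hv
    show ((A.projectionOnto C hC v : A) : V) = 0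
    exact congrArg Subtype.val (Submodule.projectionOnto_apply_of_mem_right hC hv)
  refine ⟨⟨fun v => χ (pr v) * χ' (v - pr v), ?_, ?_⟩, ?_, ?_⟩
  · simp
  · intro a b
    have h1 : a + b - pr (a + b) = (a - pr a) + (b - pr b) := by
      rw [map_add]; abel
    rw [h1, map_add, AddChar.map_add_eq_mul, AddChar.map_add_eq_mul]
    exact mul_mul_mul_comm _ _ _ _
  · intro v hv
    show χ (pr v) * χ' (v - pr v) = χ v
    rw [hprA v hv, sub_self, AddChar.map_zero_eq_one, mul_one]
  · intro v hv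
    show χ (pr v) * χ' (v - pr v) = χ' v
    rw [hprC v (hBC hv), sub_zero, AddChar.map_zero_eq_one, one_mul]

open Classical in
/-- Flags add up. -/
theorem flags_add {E : Set V} {A B : Submodule ℚ V} (hdis : Disjoint A B)
    (hcov : ∀ s ∈ E, s ∈ A ⊔ B → s ∈ A ∨ s ∈ B) {m n : ℕ} (hA : Flags (E ∩ A) m)
    (hB : Flags (E ∩ B) n) : Flags E (m + n) := by
  obtain ⟨β, hβ, hFA⟩ := hA
  obtain ⟨γ, hγ, hFB⟩ := hB
  refine ⟨Fin.append β γ, ?_, ?_⟩
  · intro i
    refine Fin.addCases (fun i => ?_) (fun i => ?_) i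
    · rw [Fin.append_left]; exact (hβ i).1
    · rw [Fin.append_right]; exact (hγ i).1
  intro c g hc hs hT
  rw [Fin.sum_univ_add]
  simp only [Fin.append_left, Fin.append_right]
  have hT' := avg_sub hT (A ⊔ B)
  set cM := c.filter fun v => v ∈ A ⊔ B with hcM
  set cA := c.filter fun v => v ∈ A with hcA
  set cB := c.filter fun v => v ∈ B with hcB
  have hhA : Herm cA := hc.filter _ (fun v hv => neg_mem hv)
  have hhB : Herm cB := hc.filter _ (fun v hv => neg_mem hv)
  have hsplit : ∀ φ : AddChar V Circle, val cM φ = val cA φ + val cB φ - c 0 := by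
    intro φ
    have h1 : ∀ (q : V → Prop) [DecidablePred q], val (c.filter q) φ =
        ∑ v ∈ c.support, if q v then c v * (φ v : ℂ) else 0 := by
      intro q _
      unfold val
      rw [Finsupp.sum, Finsupp.support_filter, Finset.sum_filter]
      refine Finset.sum_congr rfl fun v _ => ?_
      by_cases h : q v
      · rw [if_pos h, if_pos h, Finsupp.filter_apply_pos q c h]
      · rw [if_neg h, if_neg h]
    rw [hcM, hcA, hcB, h1, h1, h1]
    have h0 : c 0 = ∑ v ∈ c.support, if v = 0 then c v * (φ v : ℂ) else 0 := by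
      by_cases h : (0 : V) ∈ c.support
      · rw [Finset.sum_ite_eq' , if_pos h, AddChar.map_zero_eq_one, Circle.coe_one, mul_one]
      · rw [Finset.sum_ite_eq' , if_neg h]
        exact Finsupp.notMem_support_iff.mp h
    rw [h0, ← Finset.sum_add_distrib, ← Finset.sum_sub_distrib]
    refine Finset.sum_congr rfl fun v hv => ?_
    by_cases hv0 : v = 0
    · subst hv0
      simp
    · have hAB : ¬ (v ∈ A ∧ v ∈ B) := fun h => hv0 ((Submodule.disjoint_def.mp hdis) v h.1 h.2)
      rcases hs v hv with hvE | hvE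
      · by_cases hvM : v ∈ A ⊔ B
        · rcases hcov v hvE hvM with h | h
          · have h' : v ∉ B := fun h' => hAB ⟨h, h'⟩
            simp [hvM, h, h', hv0]
          · have h' : v ∉ A := fun h' => hAB ⟨h', h⟩
            simp [hvM, h, h', hv0]
        · have h1 : v ∉ A := fun h => hvM (mem_sup_left h)
          have h2 : v ∉ B := fun h => hvM (mem_sup_right h)
          simp [hvM, h1, h2, hv0]
      · exact absurd hvE hv0
  have hvalA : ∀ (φ χ : AddChar V Circle), (∀ v ∈ A, φ v = χ v) → val cA φ = val cA χ := by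
    intro φ χ h
    unfold val
    refine Finset.sum_congr rfl fun v hv => ?_
    rw [hcA, Finsupp.support_filter, Finset.mem_filter] at hv
    show cA v * (φ v : ℂ) = cA v * (χ v : ℂ)
    rw [h v hv.2]
  have hvalB : ∀ (φ χ : AddChar V Circle), (∀ v ∈ B, φ v = χ v) → val cB φ = val cB χ := by
    intro φ χ h
    unfold val
    refine Finset.sum_congr rfl fun v hv => ?_
    rw [hcB, Finsupp.support_filter, Finset.mem_filter] at hv
    show cB v * (φ v : ℂ) = cB v * (χ v : ℂ)
    rw [h v hv.2]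
  have hA0 : cA 0 = c 0 := Finsupp.filter_apply_pos (fun v => v ∈ A) c (zero_mem A)
  have hB0 : cB 0 = c 0 := Finsupp.filter_apply_pos (fun v => v ∈ B) c (zero_mem B)
  have hsA : ∀ v ∈ cA.support, v ∈ E ∩ A ∨ v = 0 := by
    intro v hv
    rw [hcA, Finsupp.support_filter, Finset.mem_filter] at hv
    rcases hs v hv.1 with h | h
    · exact Or.inl ⟨h, hv.2⟩
    · exact Or.inr h
  have hsB : ∀ v ∈ cB.support, v ∈ E ∩ B ∨ v = 0 := by
    intro v hv
    rw [hcB, Finsupp.support_filter, Finset.mem_filter] at hv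
    rcases hs v hv.1 with h | h
    · exact Or.inl ⟨h, hv.2⟩
    · exact Or.inr h
  have hcβ : ∑ i, ‖cA (β i)‖ = ∑ i, ‖c (β i)‖ :=
    Finset.sum_congr rfl fun i _ => by
      rw [hcA, Finsupp.filter_apply_pos (fun v => v ∈ A) c (hβ i).2]
  have hcγ : ∑ i, ‖cB (γ i)‖ = ∑ i, ‖c (γ i)‖ :=
    Finset.sum_congr rfl fun i _ => by
      rw [hcB, Finsupp.filter_apply_pos (fun v => v ∈ B) c (hγ i).2]
  have hTB : ∀ χ' : AddChar V Circle, g + ∑ i, ‖c (β i)‖ ≤ (val cB χ').re := by
    intro χ'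
    have h1 : ∀ χ : AddChar V Circle, g - (val cB χ').re + (c 0).re ≤ (val cA χ).re := by
      intro χ
      obtain ⟨φ, hφA, hφB⟩ := join_char hdis χ χ'
      have h2 := hT' φ
      rw [hsplit φ, hvalA φ χ hφA, hvalB φ χ' hφB, Complex.sub_re, Complex.add_re] at h2
      linarith
    have h3 := hFA cA _ hhA hsA h1
    rw [hA0, hcβ] at h3
    linarith
  have h4 := hFB cB _ hhB hsB hTB
  rw [hB0, hcγ] at h4
  linarith

/-- **Flags.**  For a finite symmetric set `E` of rank `r ≥ 1` there are `r + 1` elements `β_k`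
of `E` with `T_0 ≥ g + ∑ |T_{β_k}|` for every hermitian `T ≥ g` with exponents in `E ∪ {0}`. -/
theorem flags : ∀ (n : ℕ) {E : Set V}, E.Finite → (∀ v ∈ E, -v ∈ E) →
    finrank ℚ (span ℚ E) = n → 1 ≤ n → Flags E (n + 1) := by
  intro n
  induction n using Nat.strong_induction_on with
  | _ n ih =>
    intro E hE hsym hn h1
    rcases Nat.lt_or_ge n 3 with h3 | h3
    · interval_cases n
      · exact flags_one hE hn
      · exact flags_two hE hsym hn
    · obtain ⟨A, B, hdis, hA, hB, hA1, hB1, hdim, hcov⟩ := thw_rel hE (by omega)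
      have hA' := ih (finrank ℚ A) (by omega) (E := E ∩ A) (hE.subset Set.inter_subset_left)
        (fun v hv => ⟨hsym v hv.1, neg_mem hv.2⟩) (by rw [hA]) hA1
      have hB' := ih (finrank ℚ B) (by omega) (E := E ∩ B) (hE.subset Set.inter_subset_left)
        (fun v hv => ⟨hsym v hv.1, neg_mem hv.2⟩) (by rw [hB]) hB1
      have h4 := flags_add hdis hcov hA' hB'
      have h5 : n + 1 = (finrank ℚ A + 1) + (finrank ℚ B + 1) := by omega
      rw [h5]
      exact h4

end Pool.Agent.B5.E1
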