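import Pool.Agent.Lib.MP_b5021c_nt.IfaceE2
import Pool.Agent.Lib.MP_b5021c_nt.B.H36.Evr
import Pool.Agent.Lib.MP_b5021c_nt.E.H19.Pab
import Pool.Agent.Lib.MP_b5021c_nt.E1.Flg

/-!
# MP_b5021c_nt, stage 3, E1: the strong form of Lemma NT
-/

namespace Pool.Agent.B5.E1

open Submodule Module
open Pool.Agent.B5 Pool.Agent.B5.H36 Pool.Agent.B5.E.H19

/-- Rational rank. -/
theorem rk_rat {L : Type} [AddCommGroup L] [Module.Free ℤ L] [Module.Finite ℤ L] {V : Type}
    [AddCommGroup V] [Module ℚ V] (j : L →ₗ[ℤ] V) (hj : Function.Injective j) (S : Set L) :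
    finrank ℚ (span ℚ (j '' S)) = rk S := by
  unfold rk
  set N := span ℤ S with hN
  let b := Module.finBasis ℤ N
  let v : Fin (finrank ℤ N) → L := fun i => (b i : L)
  have hv : LinearIndependent ℤ v := b.linearIndependent.map' N.subtype (by simp)
  have hjv : LinearIndependent ℤ (fun i => j (v i)) := hv.map' j (LinearMap.ker_eq_bot.mpr hj)
  have hjv' : LinearIndependent ℚ (fun i => j (v i)) :=
    (LinearIndependent.iff_fractionRing ℤ ℚ).mp hjv
  have hspan : span ℚ (j '' S) = span ℚ (Set.range fun i => j (v i)) := by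
    apply le_antisymm
    · refine span_le.mpr ?_
      rintro _ ⟨s, hs, rfl⟩
      have h1 := b.sum_repr ⟨s, subset_span hs⟩
      have h2 : s = ∑ i, b.repr ⟨s, subset_span hs⟩ i • v i := by
        have := congrArg Subtype.val h1
        simp only [AddSubmonoidClass.coe_finsetSum] at this
        exact this.symm
      rw [h2, map_sum]
      refine sum_mem fun i _ => ?_
      rw [map_smul]
      exact zsmul_mem (subset_span (Set.mem_range_self i)) _
    · refine span_le.mpr ?_
      rintro _ ⟨i, rfl⟩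
      have h1 : v i ∈ span ℤ S := (b i).2
      have h2 : j (v i) ∈ (span ℤ S).map j := mem_map_of_mem h1
      rw [Submodule.map_span] at h2
      exact Submodule.span_le_restrictScalars ℤ ℚ (j '' S) h2
  rw [hspan, finrank_span_eq_card hjv', Fintype.card_fin]


section

variable {L : Type} [AddCommGroup L] [Module.Free ℤ L] [Module.Finite ℤ L]

/-- The embedding of the lattice in a rational vector space. -/
noncomputable def jL (L : Type) [AddCommGroup L] [Module.Free ℤ L] [Module.Finite ℤ L] :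
    L →ₗ[ℤ] (Fin (finrank ℤ L) → ℚ) :=
  (((Int.castAddHom ℚ).compLeft (Fin (finrank ℤ L))).comp
    ((Module.finBasis ℤ L).equivFun : L →ₗ[ℤ] _).toAddMonoidHom).toIntLinearMap

theorem jL_inj : Function.Injective (jL L) := by
  intro a b h
  apply (Module.finBasis ℤ L).equivFun.injective
  funext i
  have h1 := congrFun h i
  have h2 : (((Module.finBasis ℤ L).equivFun a i : ℤ) : ℚ) =
      (((Module.finBasis ℤ L).equivFun b i : ℤ) : ℚ) := h1
  exact_mod_cast h2

variable {O : Type} [CommRing O] [Coef O]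

/-- The trigonometric polynomial at `z` with exponents in the rational vector space. -/
noncomputable def cz (T : AO O L) (z : Circle) : (Fin (finrank ℤ L) → ℚ) →₀ ℂ :=
  (T.coeff.mapRange (evR z) (map_zero _)).embDomain ⟨jL L, jL_inj⟩

theorem cz_apply (T : AO O L) (z : Circle) (a : L) : cz T z (jL L a) = evR z (T.coeff a) := by
  have := Finsupp.embDomain_apply_self (⟨jL L, jL_inj⟩ : L ↪ (Fin (finrank ℤ L) → ℚ))
    (T.coeff.mapRange (evR z) (map_zero _)) a
  exact this

theorem cz_notin (T : AO O L) (z : Circle) {v : Fin (finrank ℤ L) → ℚ}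
    (hv : v ∉ Set.range (jL L)) : cz T z v = 0 :=
  Finsupp.embDomain_of_notMem_range _ _ _ hv

theorem cz_herm {T : AO O L} (hT : sharp T = T) (z : Circle) : Herm (cz T z) := by
  intro v
  by_cases hv : v ∈ Set.range (jL L)
  · obtain ⟨a, rfl⟩ := hv
    rw [← map_neg, cz_apply, cz_apply, ← evR_rsh]
    congr 1
    conv_lhs => rw [← hT]
    rw [sharp_coeff', neg_neg]
  · have hv' : -v ∉ Set.range (jL L) := by
      rintro ⟨a, ha⟩
      exact hv ⟨-a, by rw [map_neg, ha, neg_neg]⟩
    rw [cz_notin T z hv, cz_notin T z hv', map_zero]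

theorem cz_val (T : AO O L) (z : Circle) (χ : AddChar (Fin (finrank ℤ L) → ℚ) Circle) :
    val (cz T z) χ = ev z (χ.compAddMonoidHom (jL L).toAddMonoidHom) T := by
  unfold ev val cz
  rw [RingHom.comp_apply, evC_apply, Finsupp.sum_embDomain]
  rw [Finsupp.sum_mapRange_index (fun a => zero_mul _)]
  have h1 : (spec z T).coeff = T.coeff.mapRange (evR z) (map_zero _) := by
    ext a
    rw [spec_coeff, Finsupp.mapRange_apply]
  rw [h1, Finsupp.sum_mapRange_index (fun a => zero_mul _)]
  rfl

/-- **Flags for elements of the group algebra.** -/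
theorem flagsT {T : AO O L} (hT0 : T ≠ 0) (hT : Npos T) :
    ∃ α : Fin (rk (supp T) + 1) → L, (∀ i, T.coeff (α i) ≠ 0) ∧
      ∀ z : Circle, ∑ i, ‖evR z (T.coeff (α i))‖ ≤ (evR z (T.coeff 0)).re := by
  set S : Set L := supp T \ {0} with hS
  have hfinS : S.Finite := T.coeff.support.finite_toSet.subset (fun a ha => by
    rw [Finset.mem_coe, Finsupp.mem_support_iff]
    exact ha.1)
  have hrk : rk (supp T) = rk S := by
    unfold rk
    rw [hS, Submodule.span_sdiff_singleton_zero]
  have hsymT : ∀ a, T.coeff (-a) ≠ 0 → T.coeff a ≠ 0 := by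
    intro a ha ha0
    apply ha
    have h1 : T.coeff (-a) = rsh (T.coeff a) := by
      conv_lhs => rw [← hT.1]
      rw [sharp_coeff', neg_neg]
    rw [h1, ha0, map_zero]
  rcases Nat.eq_zero_or_pos (rk S) with h0 | h1
  · -- constant
    have hS0 : S = ∅ := by
      by_contra hne
      obtain ⟨a, ha⟩ := Set.nonempty_iff_ne_empty.mpr hne
      have h2 : span ℤ S = ⊥ := Submodule.finrank_eq_zero.mp h0
      have h3 : a ∈ span ℤ S := subset_span ha
      rw [h2] at h3
      exact ha.2 ((Submodule.mem_bot ℤ).mp h3)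
    have hsupp : ∀ a, a ≠ 0 → T.coeff a = 0 := by
      intro a ha
      by_contra hc
      have : a ∈ S := ⟨hc, ha⟩
      rw [hS0] at this
      exact this
    have hT00 : T.coeff 0 ≠ 0 := by
      intro h
      apply hT0
      apply AddMonoidAlgebra.ext
      apply Finsupp.ext
      intro a
      by_cases ha : a = 0
      · rw [ha, h]; rfl
      · rw [hsupp a ha]; rfl
    refine ⟨fun _ => 0, fun _ => hT00, ?_⟩
    intro z
    rw [Finset.sum_const, Finset.card_univ, Fintype.card_fin, hrk, h0, zero_add, one_smul]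
    have hval : ev z 1 T = evR z (T.coeff 0) := by
      unfold ev
      rw [RingHom.comp_apply, evC_apply]
      rw [Finsupp.sum_of_support_subset (s := {0}) _ _ _ (fun _ _ => zero_mul _)]
      · rw [Finset.sum_singleton, spec_coeff]
        simp
      · intro a ha
        rw [Finset.mem_singleton]
        by_contra hc
        rw [Finsupp.mem_support_iff, spec_coeff, hsupp a hc, map_zero] at ha
        exact ha rfl
    have hpos := hT.2 z 1
    rw [hval] at hpos
    have hreal : (starRingEnd ℂ) (evR z (T.coeff 0)) = evR z (T.coeff 0) := by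
      rw [← evR_rsh]
      congr 1
      conv_rhs => rw [← hT.1]
      rw [sharp_coeff', neg_zero]
    have him : (evR z (T.coeff 0)).im = 0 := Complex.conj_eq_iff_im.mp hreal
    have h4 : evR z (T.coeff 0) = (((evR z (T.coeff 0)).re : ℝ) : ℂ) :=
      Complex.ext (by simp) (by simp [him])
    rw [h4, Complex.norm_real, Real.norm_eq_abs, abs_of_nonneg hpos, Complex.ofReal_re]
  · have hfr : finrank ℚ (span ℚ (jL L '' S)) = rk S := rk_rat (jL L) jL_inj S
    have hE : (jL L '' S).Finite := hfinS.image _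
    have hsym : ∀ v ∈ jL L '' S, -v ∈ jL L '' S := by
      rintro _ ⟨a, ha, rfl⟩
      refine ⟨-a, ⟨?_, ?_⟩, map_neg _ _⟩
      · exact hsymT (-a) (by rw [neg_neg]; exact ha.1)
      · intro h
        exact ha.2 (neg_eq_zero.mp h)
    obtain ⟨β, hβ, hF⟩ := flags (rk S) hE hsym hfr h1
    choose α hα hαβ using hβ
    rw [hrk]
    refine ⟨α, fun i => (hα i).1, ?_⟩
    intro z
    have h2 := hF (cz T z) 0 (cz_herm hT.1 z) (by
      intro v hv
      rw [Finsupp.mem_support_iff] at hv
      have hvr : v ∈ Set.range (jL L) := by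
        by_contra hc
        exact hv (cz_notin T z hc)
      obtain ⟨a, rfl⟩ := hvr
      rw [cz_apply] at hv
      by_cases ha : a = 0
      · right; rw [ha, map_zero]
      · left
        refine ⟨a, ⟨?_, ha⟩, rfl⟩
        intro h
        apply hv
        have h' : T.coeff a = 0 := h
        rw [h', map_zero]) (by
      intro χ
      rw [cz_val]
      exact hT.2 z _)
    have h3 : ∀ i, cz T z (β i) = evR z (T.coeff (α i)) := fun i => by
      rw [← hαβ i, cz_apply]
    have h4 : cz T z 0 = evR z (T.coeff 0) := by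
      rw [← map_zero (jL L), cz_apply]
    rw [h4, zero_add] at h2
    calc ∑ i, ‖evR z (T.coeff (α i))‖ = ∑ i, ‖cz T z (β i)‖ :=
          Finset.sum_congr rfl fun i _ => by rw [h3]
      _ ≤ _ := h2

theorem evR_evL (z : Circle) (p : RO O) : evR z p = evL (z : ℂ) p := by
  rw [evR_eq]; rfl

end

/-- (SNT) **The strong form of Lemma NT.** -/
theorem snt : SntS := by
  intro O _ _ _ _ L _ _ _ T hT0 hT a ha
  obtain ⟨α, hα, hF⟩ := flagsT hT0 hT
  have ha1 : ‖a‖ < 1 := by linarith
  have h1 : pmn a (T.coeff 0) = pme a (fun z => (evL z (T.coeff 0)).re) := rfl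
  have hc : ∀ i ∈ (Finset.univ : Finset (Fin (rk (supp T) + 1))),
      ContinuousOn (fun z => ‖evL z (T.coeff (α i))‖) (Metric.sphere (0 : ℂ) |(1 : ℝ)|) :=
    fun i _ => (cont_evL (T.coeff (α i))).norm
  have h2 : pme a (fun z => ∑ i, ‖evL z (T.coeff (α i))‖) ≤
      pme a (fun z => (evL z (T.coeff 0)).re) := by
    apply pme_mono ha1
    · exact continuousOn_finsetSum _ hc
    · exact Complex.continuous_re.comp_continuousOn (cont_evL _)
    · intro z hz
      obtain ⟨ζ, rfl⟩ : ∃ ζ : Circle, (ζ : ℂ) = z := ⟨⟨z, mem_sphere_zero_iff_norm.mpr hz⟩, rfl⟩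
      have h5 := hF ζ
      rw [evR_evL ζ (T.coeff 0)] at h5
      calc ∑ i, ‖evL (ζ : ℂ) (T.coeff (α i))‖ = ∑ i, ‖evR ζ (T.coeff (α i))‖ :=
            Finset.sum_congr rfl fun i _ => by rw [evR_evL ζ]
        _ ≤ _ := h5
  rw [pme_sum ha1 _ _ hc] at h2
  have h3 : ∑ i : Fin (rk (supp T) + 1), (1 : ℝ) ≤
      ∑ i, pme a (fun z => ‖evL z (T.coeff (α i))‖) :=
    Finset.sum_le_sum fun i _ => pab (T.coeff (α i)) (hα i) ha
  rw [Finset.sum_const, Finset.card_univ, Fintype.card_fin, nsmul_eq_mul, mul_one] at h3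
  rw [h1]
  push_cast at h3
  linarith

end Pool.Agent.B5.E1
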