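import Pool.Agent.Lib.MP_b5021c_nt.E1.Snt

/-!
# MP_b5021c_nt, stage 3, E1: the line lemma
-/

namespace Pool.Agent.B5.E1

open Submodule Module
open Pool.Agent.B5 Pool.Agent.B5.H36

/-- Simplicial chambers. -/
def ScS : Prop := ∀ (V : Type) [AddCommGroup V] [Module ℚ V] (E : Set V), E.Finite →
  (∀ v ∈ E, -v ∈ E) → span ℚ E = ⊤ → ∀ e ∈ E, e ≠ 0 →
    ∃ (n : ℕ) (b : Basis (Fin (n + 1)) ℚ V), (∀ i, b i ∈ E) ∧ b (Fin.last n) = e ∧
      ∀ v ∈ E, (∀ i, 0 ≤ b.repr v i) ∨ (∀ i, b.repr v i ≤ 0)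

/-- Non-negative polynomials with constant term `2` and a zero. -/
def OneS : Prop := ∀ c : ℤ →₀ ℤ, (∀ k, c (-k) = c k) →
  (∀ z : Circle, 0 ≤ (c.sum fun k a => (a : ℂ) * (z : ℂ) ^ k).re) → c 0 = 2 →
    (∃ z : Circle, (c.sum fun k a => (a : ℂ) * (z : ℂ) ^ k) = 0) →
      ∃ (M : ℕ) (κ : ℤ), 0 < M ∧ (κ = 1 ∨ κ = -1) ∧
        ∀ k : ℤ, c k = if k = 0 then 2 else if k = M ∨ k = -M then κ else 0

/-- (LIN) the line lemma, over `ℤ`. -/
def LinS : Prop := ∀ (L : Type) [AddCommGroup L] [Module.Free ℤ L] [Module.Finite ℤ L]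
  (T : AO ℤ L), Npos T → (T.coeff 0).coeff 0 = (rk (supp T) : ℤ) + 2 →
    ∀ m m' : ℤ, 0 < m → 0 < m' → (T.coeff 0).coeff m ≠ 0 → (T.coeff 0).coeff m' ≠ 0 →
      m = m' ∧ |(T.coeff 0).coeff m| ≤ 1

/-! ## One variable -/

/-- Value at a point of the circle. -/
noncomputable def ez (z : Circle) : (ℤ →₀ ℤ) →+ ℂ :=
  Finsupp.liftAddHom fun k => (AddMonoidHom.mulRight ((z : ℂ) ^ k)).comp (Int.castAddHom ℂ)

theorem ez_apply (z : Circle) (c : ℤ →₀ ℤ) :
    ez z c = c.sum fun k a => (a : ℂ) * (z : ℂ) ^ k := rfl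

theorem ez_single (z : Circle) (k a : ℤ) :
    ez z (Finsupp.single k a) = (a : ℂ) * (z : ℂ) ^ k := by
  rw [ez_apply, Finsupp.sum_single_index]; simp

/-- Shift. -/
noncomputable def sh (m : ℤ) (c : ℤ →₀ ℤ) : ℤ →₀ ℤ := c.mapDomain (· + m)

theorem sh_apply (m : ℤ) (c : ℤ →₀ ℤ) (k : ℤ) : sh m c k = c (k - m) := by
  have := Finsupp.mapDomain_apply (add_left_injective m) c (k - m)
  rw [sub_add_cancel] at this
  exact this

theorem ez_sh (z : Circle) (m : ℤ) (c : ℤ →₀ ℤ) : ez z (sh m c) = (z : ℂ) ^ m * ez z c := by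
  rw [ez_apply, ez_apply, sh, Finsupp.sum_mapDomain_index]
  · rw [Finsupp.mul_sum]
    refine Finsupp.sum_congr fun k _ => ?_
    rw [zpow_add₀ (Circle.coe_ne_zero z)]
    ring
  · intro b; simp
  · intro b a a'; push_cast; ring

/-- Multiplication by `2 - s (x^m + x^(-m))`. -/
noncomputable def mulh (s m : ℤ) (c : ℤ →₀ ℤ) : ℤ →₀ ℤ := (2 : ℤ) • c - s • sh m c - s • sh (-m) c

theorem mulh_apply (s m : ℤ) (c : ℤ →₀ ℤ) (k : ℤ) :
    mulh s m c k = 2 * c k - s * c (k - m) - s * c (k + m) := by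
  unfold mulh
  rw [Finsupp.sub_apply, Finsupp.sub_apply, Finsupp.smul_apply, Finsupp.smul_apply,
    Finsupp.smul_apply, sh_apply, sh_apply, sub_neg_eq_add]
  simp only [smul_eq_mul]

theorem ez_mulh (z : Circle) (s m : ℤ) (c : ℤ →₀ ℤ) :
    ez z (mulh s m c) = (2 - s * ((z : ℂ) ^ m + (z : ℂ) ^ (-m))) * ez z c := by
  unfold mulh
  rw [map_sub, map_sub, map_zsmul, map_zsmul, map_zsmul, ez_sh, ez_sh]
  simp only [zsmul_eq_mul]
  push_cast
  ring

theorem fac_nonneg (z : Circle) {s : ℤ} (hs : s = 1 ∨ s = -1) (m : ℤ) :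
    ∃ ρ : ℝ, 0 ≤ ρ ∧ (2 - s * ((z : ℂ) ^ m + (z : ℂ) ^ (-m)) : ℂ) = ρ := by
  set w : Circle := z ^ m with hw
  have hwc : (w : ℂ) = (z : ℂ) ^ m := by rw [hw, Circle.coe_zpow]
  have h1 : (z : ℂ) ^ (-m) = (starRingEnd ℂ) (w : ℂ) := by
    rw [← Circle.coe_inv_eq_conj, hw, ← zpow_neg, Circle.coe_zpow]
  rw [h1, ← hwc, Complex.add_conj]
  have hre : |(w : ℂ).re| ≤ 1 := by
    have := Complex.abs_re_le_norm (w : ℂ)
    rwa [Circle.norm_coe] at this
  have h2 := abs_le.mp hre
  rcases hs with rfl | rfl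
  · refine ⟨2 - 2 * (w : ℂ).re, by linarith, ?_⟩
    push_cast; ring
  · refine ⟨2 + 2 * (w : ℂ).re, by linarith, ?_⟩
    push_cast; ring

/-- Non-negative. -/
def Pz (c : ℤ →₀ ℤ) : Prop := ∀ z : Circle, 0 ≤ (ez z c).re

/-- Symmetric. -/
def Sy (c : ℤ →₀ ℤ) : Prop := ∀ k, c (-k) = c k

theorem Pz.mulh {c : ℤ →₀ ℤ} (hc : Pz c) {s : ℤ} (hs : s = 1 ∨ s = -1) (m : ℤ) :
    Pz (mulh s m c) := by
  intro z
  obtain ⟨ρ, hρ, h⟩ := fac_nonneg z hs m
  rw [ez_mulh, h, Complex.re_ofReal_mul]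
  exact mul_nonneg hρ (hc z)

theorem Sy.mulh {c : ℤ →₀ ℤ} (hc : Sy c) (s m : ℤ) : Sy (mulh s m c) := by
  intro k
  rw [mulh_apply, mulh_apply, hc k]
  have h1 : c (-k - m) = c (k + m) := by rw [← hc (k + m)]; congr 1; ring
  have h2 : c (-k + m) = c (k - m) := by rw [← hc (k - m)]; congr 1; ring
  rw [h1, h2]
  ring

theorem cast_inj' : Function.Injective (Int.cast : ℤ → ℚ) := Int.cast_injective

open Classical in
theorem mean_nonneg {c : ℤ →₀ ℤ} (hc : Pz c) : 0 ≤ c 0 := by
  set f : ℚ →₀ ℂ := (c.mapRange (Int.cast : ℤ → ℂ) Int.cast_zero).embDomain ⟨Int.cast, cast_inj'⟩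
    with hf
  have h0 : f 0 = (c 0 : ℂ) := by
    have := Finsupp.embDomain_apply_self (⟨Int.cast, cast_inj'⟩ : ℤ ↪ ℚ)
      (c.mapRange (Int.cast : ℤ → ℂ) Int.cast_zero) 0
    simpa using this
  have hval : ∀ χ : AddChar ℚ Circle, val f χ = ez (χ 1) c := by
    intro χ
    unfold val
    rw [hf, Finsupp.sum_embDomain, Finsupp.sum_mapRange_index (fun a => zero_mul _), ez_apply]
    refine Finsupp.sum_congr fun k _ => ?_
    have h1 : χ ((k : ℤ) : ℚ) = χ 1 ^ k := by
      have := AddChar.map_zsmul_eq_zpow χ k 1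
      rw [← this]
      simp
    show _ * ((χ ((k : ℤ) : ℚ) : Circle) : ℂ) = _
    rw [h1, Circle.coe_zpow]
  have h1 : ∀ χ, (0 : ℝ) ≤ (val f χ).re := fun χ => by rw [hval]; exact hc _
  have h2 := avg_sub h1 ⊥ 1
  have h3 : val (f.filter fun v => v ∈ (⊥ : Submodule ℚ ℚ)) 1 = f 0 := by
    unfold val
    rw [Finsupp.sum_of_support_subset (s := {0}) _ _ _ (fun _ _ => zero_mul _)]
    · rw [Finset.sum_singleton, Finsupp.filter_apply_pos _ _ (zero_mem _)]
      simp
    · intro v hv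
      rw [Finsupp.support_filter, Finset.mem_filter] at hv
      rw [Finset.mem_singleton]
      exact hv.2
  rw [h3, h0, Complex.intCast_re] at h2
  exact_mod_cast h2

theorem coef_le {c : ℤ →₀ ℤ} (hs : Sy c) (hc : Pz c) (k : ℤ) : |c k| ≤ c 0 := by
  have h1 := mean_nonneg (hc.mulh (Or.inl rfl : (1 : ℤ) = 1 ∨ _) k)
  have h2 := mean_nonneg (hc.mulh (Or.inr rfl : (-1 : ℤ) = 1 ∨ _) k)
  rw [mulh_apply] at h1 h2
  have h3 : c (0 - k) = c k := by rw [zero_sub]; exact hs k
  rw [h3, zero_add] at h1 h2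
  rw [abs_le]
  constructor <;> linarith

theorem cz_neg {w : ℂ} (hw : w ≠ 0) {κ : ℂ} (hκ : κ * κ = 1) (h : 2 + κ * (w + w⁻¹) = 0) :
    w = -κ := by
  have h1 : (w + κ) * (w + κ) = 0 := by
    have h2 : w * w⁻¹ = 1 := mul_inv_cancel₀ hw
    have h3 : (w + κ) * (w + κ) = κ * w * (2 + κ * (w + w⁻¹)) + (1 - κ * κ) * w ^ 2 +
        (κ * κ - 1) - (κ * κ - 1) * w * w⁻¹ + (1 - w * w⁻¹) := by ring
    rw [h3, h, hκ, h2]
    ring
  exact eq_neg_of_add_eq_zero_left (mul_self_eq_zero.mp h1)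

theorem top_ne {G : ℤ →₀ ℤ} (s m : ℤ) (hm : 0 < m) (p : ℤ → Prop)
    (hp : ∀ k, p k → p (k + m)) {k : ℤ} (hk : p k) (hGk : G k ≠ 0) :
    ∃ K, p K ∧ G K ≠ 0 ∧ mulh s m G (K + m) = -(s * G K) := by
  classical
  set F : Finset ℤ := G.support.filter p with hF
  have hne : F.Nonempty := ⟨k, Finset.mem_filter.mpr ⟨Finsupp.mem_support_iff.mpr hGk, hk⟩⟩
  set K := F.max' hne with hK
  have hKF : K ∈ F := F.max'_mem hne
  obtain ⟨hK1, hK2⟩ := Finset.mem_filter.mp hKF
  have hmax : ∀ j, p j → K < j → G j = 0 := by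
    intro j hj hKj
    by_contra hc
    have : j ∈ F := Finset.mem_filter.mpr ⟨Finsupp.mem_support_iff.mpr hc, hj⟩
    exact absurd (F.le_max' j this) (not_le.mpr hKj)
  refine ⟨K, hK2, Finsupp.mem_support_iff.mp hK1, ?_⟩
  rw [mulh_apply, hmax (K + m) (hp _ hK2) (by omega), hmax (K + m + m) (hp _ (hp _ hK2)) (by omega),
    add_sub_cancel_right]
  ring

theorem exists_rt {m : ℤ} (hm : 0 < m) {s : ℤ} (hs : s = 1 ∨ s = -1) :
    ∃ z : Circle, (z : ℂ) ^ m = s := by
  rcases hs with rfl | rfl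
  · exact ⟨1, by simp⟩
  · refine ⟨Circle.exp (Real.pi / m), ?_⟩
    have h1 : (Circle.exp (Real.pi / m)) ^ m = Circle.exp Real.pi := by
      obtain ⟨n, rfl⟩ := Int.eq_ofNat_of_zero_le hm.le
      have hn : (n : ℝ) ≠ 0 := by
        have : n ≠ 0 := by rintro rfl; simp at hm
        exact_mod_cast this
      rw [zpow_natCast, ← Circle.exp_nsmul, nsmul_eq_mul]
      congr 1
      push_cast
      field_simp
    rw [← Circle.coe_zpow, h1, Circle.coe_exp, Complex.exp_pi_mul_I]
    push_cast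
    rfl

theorem dvd_of_rt {m M : ℤ} (hm : 0 < m) {s κ : ℤ} (hs : s = 1 ∨ s = -1)
    (h : ∀ z : Circle, (z : ℂ) ^ m = s → (z : ℂ) ^ M = κ) (hκ : κ ≠ 0) : m ∣ M := by
  obtain ⟨z, hz⟩ := exists_rt hm hs
  set ζ : Circle := Circle.exp (2 * Real.pi / m) with hζ
  have hm0 : (m : ℝ) ≠ 0 := by exact_mod_cast hm.ne'
  have hexp : ∀ (t : ℝ) (k : ℤ), Circle.exp t ^ k = Circle.exp (k * t) := by
    intro t k
    rcases Int.eq_nat_or_neg k with ⟨n, rfl | rfl⟩
    · rw [zpow_natCast, ← Circle.exp_nsmul, nsmul_eq_mul]; push_cast; rfl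
    · rw [zpow_neg, zpow_natCast, ← Circle.exp_nsmul, nsmul_eq_mul, ← Circle.exp_neg]
      push_cast
      congr 1
      ring
  have h1 : (ζ : ℂ) ^ m = 1 := by
    rw [← Circle.coe_zpow, hζ, hexp]
    have : (m : ℝ) * (2 * Real.pi / m) = 2 * Real.pi := by field_simp
    rw [this]
    simp
  have h2 := h (z * ζ) (by rw [Circle.coe_mul, mul_zpow, hz, h1, mul_one])
  rw [Circle.coe_mul, mul_zpow, h z hz] at h2
  have h3 : (ζ : ℂ) ^ M = 1 := by
    have hκ' : (κ : ℂ) ≠ 0 := by exact_mod_cast hκ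
    exact mul_left_cancel₀ hκ' (by rw [h2, mul_one])
  have h4 : Circle.exp (2 * Real.pi * (((M : ℚ) / m : ℚ) : ℝ)) = 1 := by
    apply Circle.ext
    rw [Circle.coe_one, ← h3, ← Circle.coe_zpow, hζ, hexp]
    congr 2
    push_cast
    ring
  obtain ⟨n, hn⟩ := exp_eq_one_iff.mp h4
  refine ⟨n, ?_⟩
  have hm0' : (m : ℚ) ≠ 0 := by exact_mod_cast hm.ne'
  rw [div_eq_iff hm0'] at hn
  have : (M : ℚ) = m * n := by rw [hn]; ring
  exact_mod_cast this

/-- The end of the proof in one variable. -/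
theorem one_end (hOne : OneS) {G : ℤ →₀ ℤ} (hS : Sy G) (hP : Pz G) {m : ℤ} (hm : 0 < m) {s : ℤ}
    (hs : s = 1 ∨ s = -1) {r A : ℤ} (hr : 0 ≤ r) (h0 : G 0 = r + 1) (hGm : G m = s * A)
    (hA : r ≤ A) : A = r ∧ ∀ k, ¬ m ∣ k → G k = 0 := by
  have hss : s * s = 1 := by rcases hs with rfl | rfl <;> norm_num
  have hs0 : s ≠ 0 := by rcases hs with rfl | rfl <;> norm_num
  set h := mulh s m G with hh
  have hhS : Sy h := hS.mulh s m
  have hhP : Pz h := hP.mulh hs m
  have hh0 : h 0 = 2 * (r + 1) - 2 * A := by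
    rw [hh, mulh_apply, h0, zero_sub, zero_add, hS m, hGm]
    linear_combination (-2 * A) * hss
  have hA' : A = r := by
    obtain ⟨K, -, hK, hKm⟩ := top_ne (G := G) s m hm (fun _ => True) (fun _ _ => trivial)
      (k := 0) trivial (by rw [h0]; omega)
    have h1 := coef_le hhS hhP (K + m)
    rw [hKm, hh0] at h1
    have h2 : 1 ≤ |(-(s * G K))| := Int.one_le_abs (neg_ne_zero.mpr (mul_ne_zero hs0 hK))
    omega
  refine ⟨hA', ?_⟩
  rw [hA'] at hh0
  have hh0' : h 0 = 2 := by rw [hh0]; ring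
  have hzero : ∀ z : Circle, (z : ℂ) ^ m = s → ez z h = 0 := by
    intro z hz
    have hss' : (s : ℂ) * s = 1 := by exact_mod_cast hss
    have hinv : (z : ℂ) ^ (-m) = s := by
      rw [zpow_neg, hz]
      exact inv_eq_of_mul_eq_one_left hss'
    rw [hh, ez_mulh, hinv, hz]
    have : (2 - (s : ℂ) * (s + s)) = 0 := by linear_combination (-2) * hss'
    rw [this, zero_mul]
  obtain ⟨z₀, hz₀⟩ := exists_rt hm hs
  obtain ⟨M, κ, hM, hκ, hform⟩ := hOne h hhS hhP hh0' ⟨z₀, hzero z₀ hz₀⟩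
  have hκκ : (κ : ℂ) * κ = 1 := by rcases hκ with rfl | rfl <;> norm_num
  have hhsum : h = Finsupp.single 0 2 + Finsupp.single (M : ℤ) κ + Finsupp.single (-M : ℤ) κ := by
    ext k
    rw [hform k, Finsupp.add_apply, Finsupp.add_apply, Finsupp.single_apply, Finsupp.single_apply,
      Finsupp.single_apply]
    have hM' : (0 : ℤ) < M := by exact_mod_cast hM
    by_cases h1 : k = 0
    · subst h1
      rw [if_pos rfl, if_pos rfl, if_neg (by omega), if_neg (by omega)]
      ring
    · by_cases h2 : k = M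
      · subst h2
        rw [if_neg h1, if_pos (Or.inl rfl), if_neg (Ne.symm h1), if_pos rfl, if_neg (by omega)]
        ring
      · by_cases h3 : k = -M
        · subst h3
          rw [if_neg h1, if_pos (Or.inr rfl), if_neg (Ne.symm h1), if_neg (by omega), if_pos rfl]
          ring
        · rw [if_neg h1, if_neg (by tauto), if_neg (Ne.symm h1), if_neg (Ne.symm h2),
            if_neg (Ne.symm h3)]
          ring
  have hdvd : m ∣ (M : ℤ) := by
    apply dvd_of_rt hm hs (κ := -κ) _ (by rcases hκ with rfl | rfl <;> norm_num)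
    intro z hz
    have h1 := hzero z hz
    rw [hhsum, map_add, map_add, ez_single, ez_single, ez_single, zpow_neg, zpow_zero] at h1
    push_cast
    apply cz_neg (zpow_ne_zero _ (Circle.coe_ne_zero z)) hκκ
    linear_combination h1
  intro k hk
  by_contra hGk
  obtain ⟨K, hpK, hK, hKm⟩ := top_ne (G := G) s m hm (fun k => ¬ m ∣ k)
    (fun k hk hd => hk ((Int.dvd_add_left (dvd_refl m)).mp hd)) hk hGk
  have h1 : h (K + m) = 0 := by
    rw [hform]
    have h2 : ¬ m ∣ K + m := fun hd => hpK ((Int.dvd_add_left (dvd_refl m)).mp hd)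
    rw [if_neg (fun h0 => h2 (by rw [h0]; exact dvd_zero m)), if_neg]
    rintro (h3 | h3)
    · exact h2 (by rw [h3]; exact hdvd)
    · exact h2 (by rw [h3]; exact (Int.dvd_neg).mpr hdvd)
  rw [← hh, h1] at hKm
  exact (mul_ne_zero hs0 hK) (by linarith)

/-! ## Projections to one variable -/

section

variable {V : Type*} [AddCommGroup V] [Module ℚ V]

open Classical in
theorem avg_fin {c : V →₀ ℂ} {g : ℝ} (hT : ∀ χ, g ≤ (val c χ).re) {ι : Type*} (s : Finset ι)
    (l : ι → Dual ℚ V) :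
    ∀ χ, g ≤ (val (c.filter fun v => ∀ i ∈ s, ∃ n : ℤ, l i v = n) χ).re := by
  induction s using Finset.induction_on with
  | empty =>
    have h1 : (c.filter fun v => ∀ i ∈ (∅ : Finset ι), ∃ n : ℤ, l i v = n) = c := by
      rw [Finsupp.filter_eq_self_iff]
      intro v _ i hi
      exact absurd hi (Finset.notMem_empty i)
    rw [h1]
    exact hT
  | insert a s ha ih =>
    have h1 := avg ih (l a)
    have h2 : ((c.filter fun v => ∀ i ∈ s, ∃ n : ℤ, l i v = n).filter
        fun v => ∃ n : ℤ, l a v = n) = c.filter fun v => ∀ i ∈ insert a s, ∃ n : ℤ, l i v = n := by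
      ext1 v
      rw [Finsupp.filter_apply, Finsupp.filter_apply, Finsupp.filter_apply]
      by_cases h3 : ∃ n : ℤ, l a v = n
      · by_cases h4 : ∀ i ∈ s, ∃ n : ℤ, l i v = n
        · rw [if_pos h3, if_pos h4, if_pos]
          intro i hi
          rcases Finset.mem_insert.mp hi with rfl | hi
          · exact h3
          · exact h4 i hi
        · rw [if_pos h3, if_neg h4, if_neg]
          exact fun h => h4 fun i hi => h i (Finset.mem_insert_of_mem hi)
      · rw [if_neg h3, if_neg]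
        exact fun h => h3 (h a (Finset.mem_insert_self a s))
    rw [h2] at h1
    exact h1

variable {ι : Type*} [Fintype ι]

/-- Integral coordinates. -/
def PP (l : ι → Dual ℚ V) (v : V) : Prop := ∀ i, ∃ n : ℤ, l i v = n

/-- The exponent. -/
noncomputable def NN (l : ι → Dual ℚ V) (w : ι → ℤ) (v : V) : ℤ := ∑ i, w i * ⌊l i v⌋

/-- The sign. -/
noncomputable def UU (l : ι → Dual ℚ V) (u : ι → ℤˣ) (v : V) : ℤ :=
  ((∏ i, u i ^ ⌊l i v⌋ : ℤˣ) : ℤ)

open Classical in
/-- The projected polynomial. -/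
noncomputable def GG (c : V →₀ ℤ) (l : ι → Dual ℚ V) (w : ι → ℤ) (u : ι → ℤˣ) : ℤ →₀ ℤ :=
  ∑ v ∈ c.support with PP l v, Finsupp.single (NN l w v) (c v * UU l u v)

open Classical in
theorem GG_apply (c : V →₀ ℤ) (l : ι → Dual ℚ V) (w : ι → ℤ) (u : ι → ℤˣ) (k : ℤ) :
    GG c l w u k = ∑ v ∈ c.support with (PP l v ∧ NN l w v = k), c v * UU l u v := by
  unfold GG
  rw [Finsupp.finsetSum_apply, Finset.sum_filter, Finset.sum_filter]
  refine Finset.sum_congr rfl fun v _ => ?_
  by_cases h1 : PP l v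
  · rw [if_pos h1, Finsupp.single_apply]
    by_cases h2 : NN l w v = k
    · rw [if_pos h2, if_pos ⟨h1, h2⟩]
    · rw [if_neg h2, if_neg (fun h => h2 h.2)]
  · rw [if_neg h1, if_neg (fun h => h1 h.1)]

omit [Fintype ι] in
theorem PP.neg {l : ι → Dual ℚ V} {v : V} (h : PP l v) : PP l (-v) := by
  intro i
  obtain ⟨n, hn⟩ := h i
  exact ⟨-n, by rw [map_neg, hn]; push_cast; rfl⟩

omit [Fintype ι] in
theorem floor_neg {l : ι → Dual ℚ V} {v : V} (h : PP l v) (i : ι) : ⌊l i (-v)⌋ = -⌊l i v⌋ := by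
  obtain ⟨n, hn⟩ := h i
  rw [map_neg, hn, Int.floor_intCast]
  have : -((n : ℤ) : ℚ) = ((-n : ℤ) : ℚ) := by push_cast; rfl
  rw [this, Int.floor_intCast]

theorem NN_neg {l : ι → Dual ℚ V} (w : ι → ℤ) {v : V} (h : PP l v) :
    NN l w (-v) = -NN l w v := by
  unfold NN
  rw [← Finset.sum_neg_distrib]
  refine Finset.sum_congr rfl fun i _ => ?_
  rw [floor_neg h]
  ring

theorem UU_neg {l : ι → Dual ℚ V} (u : ι → ℤˣ) {v : V} (h : PP l v) :
    UU l u (-v) = UU l u v := by
  unfold UU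
  congr 1
  refine Finset.prod_congr rfl fun i _ => ?_
  rw [floor_neg h, zpow_neg]
  exact Int.units_inv_eq_self _

theorem GG_sy {c : V →₀ ℤ} (hc : ∀ v, c (-v) = c v) (l : ι → Dual ℚ V) (w : ι → ℤ)
    (u : ι → ℤˣ) : Sy (GG c l w u) := by
  classical
  intro k
  rw [GG_apply, GG_apply]
  refine Finset.sum_nbij' (fun v => -v) (fun v => -v) ?_ ?_ ?_ ?_ ?_
  · intro v hv
    rw [Finset.mem_filter, Finsupp.mem_support_iff] at hv ⊢
    refine ⟨by rw [hc]; exact hv.1, hv.2.1.neg, ?_⟩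
    rw [NN_neg w hv.2.1, hv.2.2, neg_neg]
  · intro v hv
    rw [Finset.mem_filter, Finsupp.mem_support_iff] at hv ⊢
    refine ⟨by rw [hc]; exact hv.1, hv.2.1.neg, ?_⟩
    rw [NN_neg w hv.2.1, hv.2.2]
  · intro v _; exact neg_neg v
  · intro v _; exact neg_neg v
  · intro v hv
    rw [Finset.mem_filter] at hv
    rw [hc, UU_neg u hv.2.1]

theorem exp_zpow (t : ℝ) (k : ℤ) : Circle.exp (t * k) = Circle.exp t ^ k := by
  rcases Int.eq_nat_or_neg k with ⟨n, rfl | rfl⟩
  · rw [zpow_natCast, ← Circle.exp_nsmul, nsmul_eq_mul]; push_cast; rw [mul_comm]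
  · rw [zpow_neg, zpow_natCast, ← Circle.exp_nsmul, nsmul_eq_mul, ← Circle.exp_neg]
    push_cast
    congr 1
    ring

theorem exists_sgn (u : ℤˣ) : ∃ ω : Circle, (ω : ℂ) = ((u : ℤ) : ℂ) := by
  rcases Int.units_eq_one_or u with rfl | rfl
  · exact ⟨1, by simp⟩
  · refine ⟨Circle.exp Real.pi, ?_⟩
    rw [Circle.coe_exp, Complex.exp_pi_mul_I]
    push_cast
    rfl

theorem unit_zpow_cast (u : ℤˣ) (n : ℤ) : (((u ^ n : ℤˣ) : ℤ) : ℂ) = (((u : ℤ) : ℂ)) ^ n := by
  rcases Int.units_eq_one_or u with rfl | rfl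
  · simp
  · rcases Int.even_or_odd n with h | h
    · rw [h.neg_one_zpow]
      push_cast
      rw [h.neg_one_zpow]
    · rw [h.neg_one_zpow]
      push_cast
      rw [h.neg_one_zpow]

theorem coe_prod' {ι : Type*} (s : Finset ι) (f : ι → Circle) :
    ((∏ i ∈ s, f i : Circle) : ℂ) = ∏ i ∈ s, (f i : ℂ) := map_prod Circle.coeHom f s

theorem prod_zpow' {ι : Type*} {z : ℂ} (hz : z ≠ 0) (s : Finset ι) (f : ι → ℤ) :
    ∏ i ∈ s, z ^ f i = z ^ ∑ i ∈ s, f i := by
  classical
  induction s using Finset.induction_on with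
  | empty => simp
  | insert a s ha ih => rw [Finset.prod_insert ha, Finset.sum_insert ha, ih, zpow_add₀ hz]

/-- The character. -/
theorem exists_chi (l : ι → Dual ℚ V) (w : ι → ℤ) (u : ι → ℤˣ) (z : Circle) :
    ∃ χ : AddChar V Circle, ∀ v, PP l v → (χ v : ℂ) = (UU l u v : ℂ) * (z : ℂ) ^ (NN l w v) := by
  choose σ hσ using fun i => exists_sgn (u i)
  refine ⟨∏ i, chr (l i) (Complex.arg ((σ i * z ^ (w i) : Circle) : ℂ)), ?_⟩
  intro v hv
  rw [AddChar.prod_apply]
  have h1 : ∀ i, chr (l i) (Complex.arg ((σ i * z ^ (w i) : Circle) : ℂ)) v =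
      (σ i * z ^ (w i)) ^ ⌊l i v⌋ := by
    intro i
    obtain ⟨n, hn⟩ := hv i
    rw [chr_apply, hn, Int.floor_intCast, Rat.cast_intCast, exp_zpow, Circle.exp_arg]
  rw [Finset.prod_congr rfl fun i _ => h1 i]
  have h2 : ((∏ i, (σ i * z ^ (w i)) ^ ⌊l i v⌋ : Circle) : ℂ) =
      ∏ i, (((u i ^ ⌊l i v⌋ : ℤˣ) : ℤ) : ℂ) * (z : ℂ) ^ (w i * ⌊l i v⌋) := by
    rw [coe_prod']
    refine Finset.prod_congr rfl fun i _ => ?_
    rw [Circle.coe_zpow, Circle.coe_mul, mul_zpow, hσ, Circle.coe_zpow,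
      ← zpow_mul, unit_zpow_cast]
  rw [h2, Finset.prod_mul_distrib]
  congr 1
  · unfold UU
    push_cast
    rfl
  · unfold NN
    rw [prod_zpow' (Circle.coe_ne_zero z)]

theorem GG_pz {c : V →₀ ℤ}
    (hc : ∀ χ : AddChar V Circle, 0 ≤ (c.sum fun v a => (a : ℂ) * (χ v : ℂ)).re)
    (l : ι → Dual ℚ V) (w : ι → ℤ) (u : ι → ℤˣ) : Pz (GG c l w u) := by
  classical
  intro z
  obtain ⟨χ, hχ⟩ := exists_chi l w u z
  set f : V →₀ ℂ := c.mapRange (Int.cast : ℤ → ℂ) Int.cast_zero with hf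
  have h1 : ∀ χ, (0 : ℝ) ≤ (val f χ).re := by
    intro χ
    unfold val
    rw [hf, Finsupp.sum_mapRange_index (fun a => zero_mul _)]
    exact hc χ
  have h2 := avg_fin h1 Finset.univ l χ
  have h3 : ez z (GG c l w u) =
      val (f.filter fun v => ∀ i ∈ Finset.univ, ∃ n : ℤ, l i v = n) χ := by
    unfold GG val
    rw [map_sum, Finsupp.sum, Finsupp.support_filter]
    have hsupp : f.support = c.support := by
      ext v
      rw [Finsupp.mem_support_iff, Finsupp.mem_support_iff, hf, Finsupp.mapRange_apply]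
      simp
    rw [hsupp]
    have hfil : (c.support.filter fun v => ∀ i ∈ Finset.univ, ∃ n : ℤ, l i v = n) =
        c.support.filter (PP l) := by
      refine Finset.filter_congr fun v _ => ?_
      exact ⟨fun h i => h i (Finset.mem_univ i), fun h i _ => h i⟩
    rw [hfil]
    refine Finset.sum_congr rfl fun v hv => ?_
    have hv2 : PP l v := (Finset.mem_filter.mp hv).2
    rw [ez_single, Finsupp.filter_apply_pos _ _ (fun i _ => hv2 i), hχ v hv2, hf,
      Finsupp.mapRange_apply]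
    push_cast
    ring
  rw [h3]
  have h4 : ∀ i1 i2 : DecidablePred fun v => ∀ i ∈ (Finset.univ : Finset ι), ∃ n : ℤ, l i v = n,
      @Finsupp.filter _ _ _ _ i1 f = @Finsupp.filter _ _ _ _ i2 f := fun i1 i2 => by
    rw [Subsingleton.elim i1 i2]
  exact (congrArg (fun s => (0 : ℝ) ≤ (val s χ).re) (h4 _ _)).mp h2

end

/-! ## The line lemma -/

theorem abs_unit (x : ℤ) : ∃ u : ℤˣ, (u : ℤ) * x = |x| := by
  rcases le_total 0 x with h | h
  · exact ⟨1, by simp [abs_of_nonneg h]⟩
  · exact ⟨-1, by simp [abs_of_nonpos h]⟩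

theorem rest_zero {n : ℕ} {x : Fin (n + 1) → ℚ} (h0 : ∀ i, 0 ≤ x i) {i : Fin (n + 1)}
    (h : ∑ j, x j ≤ x i) : ∀ j, j ≠ i → x j = 0 := by
  classical
  intro j hj
  have h1 := Finset.add_sum_erase Finset.univ x (Finset.mem_univ i)
  have h2 : ∑ k ∈ Finset.univ.erase i, x k = 0 :=
    le_antisymm (by linarith) (Finset.sum_nonneg fun k _ => h0 k)
  exact (Finset.sum_eq_zero_iff_of_nonneg fun k _ => h0 k).mp h2 j
    (Finset.mem_erase.mpr ⟨hj, Finset.mem_univ j⟩)

theorem eq_smul_of {V : Type*} [AddCommGroup V] [Module ℚ V] {n : ℕ}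
    (b : Basis (Fin (n + 1)) ℚ V) (v : V) (i : Fin (n + 1))
    (h : ∀ j, j ≠ i → b.repr v j = 0) : v = b.repr v i • b i := by
  have h1 := b.sum_repr v
  rw [Finset.sum_eq_single i (fun j _ hj => by rw [h j hj, zero_smul])
    (fun h => absurd (Finset.mem_univ i) h)] at h1
  exact h1.symm

theorem line (hSC : ScS) (hOne : OneS) {V : Type} [AddCommGroup V] [Module ℚ V] (c : V →₀ ℤ)
    (hsym : ∀ v, c (-v) = c v)
    (hpos : ∀ χ : AddChar V Circle, 0 ≤ (c.sum fun v a => (a : ℂ) * (χ v : ℂ)).re)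
    (hspan : span ℚ {v | c v ≠ 0} = ⊤) (h0 : c 0 = finrank ℚ V + 1) {e : V} (he : e ≠ 0)
    {m : ℤ} (hm : 0 < m) (hcm : c (m • e) ≠ 0) :
    |c (m • e)| = 1 ∧ ∀ j : ℤ, 0 < j → j < m → c (j • e) = 0 := by
  classical
  have hmQ : (0 : ℚ) < m := by exact_mod_cast hm
  have hme : m • e ≠ 0 := by
    intro h
    rw [← Int.cast_smul_eq_zsmul ℚ] at h
    exact he ((smul_eq_zero.mp h).resolve_left hmQ.ne')
  obtain ⟨n, b, hbE, hbl, hch⟩ := hSC V {v | c v ≠ 0}
    (c.support.finite_toSet.subset fun v hv => Finsupp.mem_support_iff.mpr hv)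
    (fun v hv => by
      show c (-v) ≠ 0
      rw [hsym]; exact hv) hspan (m • e) hcm hme
  have hfr : finrank ℚ V = n + 1 := by
    rw [finrank_eq_card_basis b, Fintype.card_fin]
  choose ε hε using fun i => abs_unit (c (b i))
  set la := Fin.last n with hla
  let l : Fin (n + 1) → Dual ℚ V := fun i => if i = la then (m : ℚ) • b.coord i else b.coord i
  let w : Fin (n + 1) → ℤ := fun i => if i = la then 1 else m
  let u : Fin (n + 1) → ℤˣ := fun i => ε la * ε i
  set s : ℤ := (ε la : ℤ) with hs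
  have hs1 : s = 1 ∨ s = -1 := by
    rcases Int.units_eq_one_or (ε la) with h | h
    · left; rw [hs, h]; rfl
    · right; rw [hs, h]; rfl
  have hl1 : ∀ v, l la v = m * b.repr v la := fun v => by
    show (if la = la then (m : ℚ) • b.coord la else b.coord la) v = _
    rw [if_pos rfl]; rfl
  have hl2 : ∀ i, i ≠ la → ∀ v, l i v = b.repr v i := fun i hi v => by
    show (if i = la then (m : ℚ) • b.coord i else b.coord i) v = _
    rw [if_neg hi]; rfl
  -- (F1)
  have F1 : ∀ v, PP l v → (NN l w v : ℚ) = m * ∑ i, b.repr v i := by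
    intro v hv
    unfold NN
    push_cast
    rw [Finset.mul_sum]
    refine Finset.sum_congr rfl fun i _ => ?_
    obtain ⟨k, hk⟩ := hv i
    have h1 : ((⌊l i v⌋ : ℤ) : ℚ) = l i v := by rw [hk, Int.floor_intCast]
    rw [h1]
    by_cases hi : i = la
    · subst hi
      show ((if la = la then (1 : ℤ) else m : ℤ) : ℚ) * _ = _
      rw [if_pos rfl, hl1]
      push_cast; ring
    · show ((if i = la then (1 : ℤ) else m : ℤ) : ℚ) * _ = _
      rw [if_neg hi, hl2 i hi]
  -- (F2)
  have F2 : ∀ i j, l i (b j) = ((if i = j then (if i = la then m else 1) else 0 : ℤ) : ℚ) := by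
    intro i j
    by_cases hi : i = la
    · subst hi
      rw [hl1, b.repr_self, Finsupp.single_apply]
      by_cases hj : j = la
      · rw [if_pos hj, if_pos hj.symm, if_pos rfl]; push_cast; ring
      · rw [if_neg hj, if_neg (Ne.symm hj)]; push_cast; ring
    · rw [hl2 i hi, b.repr_self, Finsupp.single_apply]
      by_cases hj : j = i
      · rw [if_pos hj, if_pos hj.symm, if_neg hi]; push_cast; rfl
      · rw [if_neg hj, if_neg (Ne.symm hj)]; push_cast; rfl
  have F2' : ∀ j, PP l (b j) := fun j i => ⟨_, F2 i j⟩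
  -- (F3)
  have hula : u la = 1 := by
    show ε la * ε la = 1
    exact Int.units_mul_self _
  have F3 : ∀ j, UU l u (b j) = (u j : ℤ) := by
    intro j
    unfold UU
    congr 1
    rw [Finset.prod_eq_single j]
    · rw [F2, if_pos rfl, Int.floor_intCast]
      by_cases hj : j = la
      · rw [if_pos hj, hj, hula, one_zpow]
      · rw [if_neg hj, zpow_one]
    · intro i _ hi
      rw [F2, if_neg hi, Int.floor_intCast, zpow_zero]
    · intro h; exact absurd (Finset.mem_univ j) h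
  -- (F4)
  have F4 : ∀ j, NN l w (b j) = m := by
    intro j
    have h1 := F1 (b j) (F2' j)
    have h2 : ∑ i, b.repr (b j) i = 1 := by
      rw [b.repr_self]
      rw [Finset.sum_eq_single j]
      · simp
      · intro i _ hi
        rw [Finsupp.single_apply, if_neg (Ne.symm hi)]
      · intro h; exact absurd (Finset.mem_univ j) h
    rw [h2, mul_one] at h1
    exact_mod_cast h1
  set G := GG c l w u with hG
  have hSy : Sy G := GG_sy hsym l w u
  have hPz : Pz G := GG_pz hpos l w u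
  -- (F5)
  have F5 : G 0 = c 0 := by
    rw [hG, GG_apply]
    have h1 : (c.support.filter fun v => PP l v ∧ NN l w v = 0) = {0} := by
      ext v
      rw [Finset.mem_filter, Finset.mem_singleton, Finsupp.mem_support_iff]
      constructor
      · rintro ⟨h1, h2, h3⟩
        have h4 := F1 v h2
        rw [h3, Int.cast_zero] at h4
        have h5 : ∑ i, b.repr v i = 0 := (mul_eq_zero.mp h4.symm).resolve_left hmQ.ne'
        have h6 : ∀ i, b.repr v i = 0 := by
          rcases hch v h1 with h | h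
          · intro i
            exact (Finset.sum_eq_zero_iff_of_nonneg fun i _ => h i).mp h5 i (Finset.mem_univ i)
          · intro i
            exact (Finset.sum_eq_zero_iff_of_nonpos fun i _ => h i).mp h5 i (Finset.mem_univ i)
        apply b.ext_elem
        intro i
        rw [h6 i, map_zero]; rfl
      · rintro rfl
        refine ⟨by rw [h0]; positivity, fun i => ⟨0, by rw [map_zero]; simp⟩, ?_⟩
        unfold NN
        simp
    rw [h1, Finset.sum_singleton]
    unfold UU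
    simp
  -- (F6)
  have F6 : G m = s * ∑ i, |c (b i)| := by
    rw [hG, GG_apply]
    have h1 : (c.support.filter fun v => PP l v ∧ NN l w v = m) = Finset.univ.image b := by
      ext v
      rw [Finset.mem_filter, Finset.mem_image, Finsupp.mem_support_iff]
      constructor
      · rintro ⟨h1, h2, h3⟩
        have h4 := F1 v h2
        rw [h3] at h4
        have h5 : ∑ i, b.repr v i = 1 := by
          have : (m : ℚ) * 1 = m * ∑ i, b.repr v i := by rw [mul_one]; exact h4
          exact (mul_left_cancel₀ hmQ.ne' this).symm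
        have hnn : ∀ i, 0 ≤ b.repr v i := by
          rcases hch v h1 with h | h
          · exact h
          · exfalso
            have := Finset.sum_nonpos fun i (_ : i ∈ Finset.univ) => h i
            linarith
        have key : ∀ i, 1 ≤ b.repr v i → b i = v := by
          intro i hi
          have h6 := rest_zero hnn (i := i) (by linarith)
          have h7 : b.repr v i = 1 := by
            rw [Finset.sum_eq_single i (fun j _ hj => h6 j hj)
              (fun h => absurd (Finset.mem_univ i) h)] at h5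
            exact h5
          have h8 := eq_smul_of b v i h6
          rw [h7, one_smul] at h8
          exact h8.symm
        by_cases h6 : ∀ i, i ≠ la → b.repr v i = 0
        · refine ⟨la, Finset.mem_univ _, key la ?_⟩
          rw [Finset.sum_eq_single la (fun j _ hj => h6 j hj)
            (fun h => absurd (Finset.mem_univ la) h)] at h5
          rw [h5]
        · push Not at h6
          obtain ⟨i, hi, hi0⟩ := h6
          refine ⟨i, Finset.mem_univ _, key i ?_⟩
          obtain ⟨k, hk⟩ := h2 i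
          rw [hl2 i hi] at hk
          have h7 : 0 < b.repr v i := lt_of_le_of_ne (hnn i) (Ne.symm hi0)
          rw [hk] at h7 ⊢
          have : 0 < k := by exact_mod_cast h7
          exact_mod_cast this
      · rintro ⟨i, -, rfl⟩
        exact ⟨hbE i, F2' i, F4 i⟩
    rw [h1, Finset.sum_image (fun i _ j _ h => b.injective h), Finset.mul_sum]
    refine Finset.sum_congr rfl fun i _ => ?_
    rw [F3, ← hε i]
    show c (b i) * ((ε la * ε i : ℤˣ) : ℤ) = _
    push_cast
    ring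
  have hge : ∀ i, 1 ≤ |c (b i)| := fun i => Int.one_le_abs (hbE i)
  have hA : (n + 1 : ℤ) ≤ ∑ i, |c (b i)| := by
    have h1 : ∑ i : Fin (n + 1), (1 : ℤ) ≤ ∑ i, |c (b i)| := Finset.sum_le_sum fun i _ => hge i
    rw [Finset.sum_const, Finset.card_univ, Fintype.card_fin, nsmul_eq_mul, mul_one] at h1
    push_cast at h1
    exact h1
  obtain ⟨hAr, hG0⟩ := one_end hOne hSy hPz hm hs1 (r := n + 1) (by positivity)
    (by rw [F5, h0, hfr]; rfl) F6 hA
  constructor
  · have h1 : ∑ i, (|c (b i)| - 1) = 0 := by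
      rw [Finset.sum_sub_distrib, hAr, Finset.sum_const, Finset.card_univ, Fintype.card_fin,
        nsmul_eq_mul, mul_one]
      push_cast
      ring
    have h2 := (Finset.sum_eq_zero_iff_of_nonneg fun i _ => by
      have := hge i; linarith).mp h1 la (Finset.mem_univ _)
    rw [hbl] at h2
    linarith
  · intro j hj0 hjm
    by_contra hcj
    have hjQ : (0 : ℚ) < j := by exact_mod_cast hj0
    have hnd : ¬ m ∣ j := fun hd => absurd (Int.le_of_dvd hj0 hd) (not_le.mpr hjm)
    have h1 := hG0 j hnd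
    have hje : j • e = ((j : ℚ) / m) • b la := by
      rw [hbl, ← Int.cast_smul_eq_zsmul ℚ, ← Int.cast_smul_eq_zsmul ℚ, smul_smul]
      congr 1
      field_simp
    have hrep : ∀ i, b.repr (j • e) i = if i = la then (j : ℚ) / m else 0 := by
      intro i
      rw [hje, map_smul, b.repr_self, Finsupp.smul_apply, Finsupp.single_apply, smul_eq_mul]
      by_cases hi : i = la
      · rw [if_pos hi.symm, if_pos hi, mul_one]
      · rw [if_neg (Ne.symm hi), if_neg hi, mul_zero]
    have hPPj : PP l (j • e) := by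
      intro i
      by_cases hi : i = la
      · refine ⟨j, ?_⟩
        rw [hi, hl1, hrep, if_pos rfl]
        field_simp
      · refine ⟨0, ?_⟩
        rw [hl2 i hi, hrep, if_neg hi]
        simp
    have hNj : NN l w (j • e) = j := by
      have h2 := F1 _ hPPj
      rw [Finset.sum_eq_single la (fun i _ hi => by rw [hrep, if_neg hi])
        (fun h => absurd (Finset.mem_univ la) h), hrep, if_pos rfl] at h2
      have h3 : (m : ℚ) * (j / m) = j := by field_simp
      rw [h3] at h2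
      exact_mod_cast h2
    rw [hG, GG_apply] at h1
    have h2 : (c.support.filter fun v => PP l v ∧ NN l w v = j) = {j • e} := by
      ext v
      rw [Finset.mem_filter, Finset.mem_singleton, Finsupp.mem_support_iff]
      constructor
      · rintro ⟨h1, h2, h3⟩
        have h4 := F1 v h2
        rw [h3] at h4
        have h5 : ∑ i, b.repr v i = (j : ℚ) / m := by
          rw [h4]; field_simp
        have h5p : 0 < ∑ i, b.repr v i := by rw [h5]; positivity
        have h5l : ∑ i, b.repr v i < 1 := by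
          rw [h5, div_lt_one hmQ]
          exact_mod_cast hjm
        have hnn : ∀ i, 0 ≤ b.repr v i := by
          rcases hch v h1 with h | h
          · exact h
          · exfalso
            have := Finset.sum_nonpos fun i (_ : i ∈ Finset.univ) => h i
            linarith
        have h6 : ∀ i, i ≠ la → b.repr v i = 0 := by
          intro i hi
          obtain ⟨k, hk⟩ := h2 i
          rw [hl2 i hi] at hk
          have h7 : b.repr v i ≤ ∑ j, b.repr v j :=
            Finset.single_le_sum (fun j _ => hnn j) (Finset.mem_univ i)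
          have h8 : (k : ℚ) < 1 := by rw [← hk]; linarith
          have h9 : (0 : ℚ) ≤ k := by rw [← hk]; exact hnn i
          have h10 : k < 1 := by exact_mod_cast h8
          have h11 : 0 ≤ k := by exact_mod_cast h9
          have h12 : k = 0 := by omega
          rw [hk, h12, Int.cast_zero]
        have h7 := eq_smul_of b v la h6
        rw [Finset.sum_eq_single la (fun j _ hj => h6 j hj)
            (fun h => absurd (Finset.mem_univ la) h)] at h5
        rw [h7, h5, hje]
      · rintro rfl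
        exact ⟨hcj, hPPj, hNj⟩
    rw [h2, Finset.sum_singleton] at h1
    rcases mul_eq_zero.mp h1 with h3 | h3
    · exact hcj h3
    · unfold UU at h3
      exact Units.ne_zero _ h3

/-! ## Group algebras -/

section

variable {L : Type} [AddCommGroup L] [Module.Free ℤ L] [Module.Finite ℤ L]

theorem jp_inj : Function.Injective
    (fun x : L × ℤ => (((x.2 : ℚ), jL L x.1) : ℚ × (Fin (finrank ℤ L) → ℚ))) := by
  rintro ⟨a, n⟩ ⟨a', n'⟩ h
  have h1 := congrArg Prod.fst h
  have h2 := congrArg Prod.snd h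
  have h3 : a = a' := jL_inj h2
  have h4 : n = n' := by
    have : ((n : ℤ) : ℚ) = n' := h1
    exact_mod_cast this
  rw [h3, h4]

/-- The embedding of `L × ℤ`. -/
noncomputable def jp (L : Type) [AddCommGroup L] [Module.Free ℤ L] [Module.Finite ℤ L] :
    L × ℤ ↪ ℚ × (Fin (finrank ℤ L) → ℚ) := ⟨_, jp_inj⟩

theorem jp_apply (a : L) (n : ℤ) : jp L (a, n) = ((n : ℚ), jL L a) := rfl

/-- All coefficients as a function on a rational vector space. -/
noncomputable def ct (T : AO ℤ L) : (ℚ × (Fin (finrank ℤ L) → ℚ)) →₀ ℤ :=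
  (T.coeff.mapRange (fun p : RO ℤ => p.coeff) AddMonoidAlgebra.coeff_zero).uncurry.embDomain (jp L)

theorem ct_apply (T : AO ℤ L) (a : L) (n : ℤ) : ct T (jp L (a, n)) = (T.coeff a).coeff n := by
  unfold ct
  rw [Finsupp.embDomain_apply_self]
  rfl

theorem ct_notin (T : AO ℤ L) {v : ℚ × (Fin (finrank ℤ L) → ℚ)} (hv : v ∉ Set.range (jp L)) :
    ct T v = 0 := Finsupp.embDomain_of_notMem_range _ _ _ hv

theorem ct_sym {T : AO ℤ L} (hT : sharp T = T) (v : ℚ × (Fin (finrank ℤ L) → ℚ)) :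
    ct T (-v) = ct T v := by
  have hneg : ∀ (a : L) (n : ℤ), -(jp L (a, n)) = jp L (-a, -n) := by
    intro a n
    rw [jp_apply, jp_apply, map_neg]
    push_cast
    rfl
  by_cases hv : v ∈ Set.range (jp L)
  · obtain ⟨⟨a, n⟩, rfl⟩ := hv
    rw [hneg, ct_apply, ct_apply]
    conv_lhs => rw [← hT]
    rw [sharp_coeff', neg_neg, rsh_int, LaurentPolynomial.invert_apply, neg_neg]
  · have hv' : -v ∉ Set.range (jp L) := by
      rintro ⟨⟨a, n⟩, ha⟩
      exact hv ⟨(-a, -n), by rw [← hneg, ha, neg_neg]⟩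
    rw [ct_notin T hv, ct_notin T hv']

theorem ct_val (T : AO ℤ L) (χ : AddChar (ℚ × (Fin (finrank ℤ L) → ℚ)) Circle) :
    (ct T).sum (fun v a => (a : ℂ) * (χ v : ℂ)) =
      ev (χ (1, 0)) (χ.compAddMonoidHom
        ((AddMonoidHom.inr ℚ (Fin (finrank ℤ L) → ℚ)).comp (jL L).toAddMonoidHom)) T := by
  unfold ev ct
  rw [RingHom.comp_apply, evC_apply, Finsupp.sum_embDomain,
    Finsupp.sum_uncurry_index, Finsupp.sum_mapRange_index (fun a => by simp)]
  have h1 : (spec (χ (1, 0)) T).coeff = T.coeff.mapRange (evR (χ (1, 0))) (map_zero _) := by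
    ext a
    rw [spec_coeff, Finsupp.mapRange_apply]
  rw [h1, Finsupp.sum_mapRange_index (fun a => zero_mul _)]
  refine Finsupp.sum_congr fun a _ => ?_
  rw [evR_eq, Finsupp.sum_mul]
  refine Finsupp.sum_congr fun n _ => ?_
  have h2 : χ (jp L (a, n)) = χ (1, 0) ^ n * χ (0, jL L a) := by
    rw [← AddChar.map_zsmul_eq_zpow, ← AddChar.map_add_eq_mul, jp_apply]
    congr 1
    ext i
    · simp
    · simp
  rw [h2, Circle.coe_mul, Circle.coe_zpow]
  show _ = ((((T.coeff a).coeff n : ℤ) : ℂ) * _) * ((χ (0, jL L a) : Circle) : ℂ)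
  ring

/-- (LIN) -/
theorem lin (hSC : ScS) (hOne : OneS) : LinS := by
  classical
  intro L _ _ _ T hT h0 m m' hm hm' hcm hcm'
  set c := ct T with hc
  set S : Set (ℚ × (Fin (finrank ℤ L) → ℚ)) := {v | c v ≠ 0} with hS
  set W := span ℚ S with hW
  let cW : W →₀ ℤ := c.comapDomain Subtype.val Subtype.val_injective.injOn
  have hcW : ∀ w : W, cW w = c w.1 := fun w => rfl
  -- the vector `e`
  have hmS : jp L (0, m) ∈ S := by
    show c (jp L (0, m)) ≠ 0
    rw [hc, ct_apply]; exact hcm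
  have hmQ : (m : ℚ) ≠ 0 := by exact_mod_cast hm.ne'
  have h1W : ((1 : ℚ), (0 : Fin (finrank ℤ L) → ℚ)) ∈ W := by
    have h1 : ((1 : ℚ), (0 : Fin (finrank ℤ L) → ℚ)) = (1 / (m : ℚ)) • jp L (0, m) := by
      rw [jp_apply, map_zero]
      ext i
      · simp [hmQ]
      · simp
    rw [h1]
    exact W.smul_mem _ (subset_span hmS)
  set e : W := ⟨_, h1W⟩ with he
  have hej : ∀ j : ℤ, cW (j • e) = (T.coeff 0).coeff j := by
    intro j
    rw [hcW, ← ct_apply T 0 j]
    congr 1
    rw [jp_apply, map_zero]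
    ext i
    · simp [he]
    · simp [he]
  have he0 : e ≠ 0 := by
    intro h
    have := congrArg (fun w : W => (w.1).1) h
    simp [he] at this
  -- the rank
  have hrk : finrank ℚ W = rk (supp T) + 1 := by
    set A : Submodule ℚ (ℚ × (Fin (finrank ℤ L) → ℚ)) :=
      span ℚ {((1 : ℚ), (0 : Fin (finrank ℤ L) → ℚ))} with hA
    set B0 := span ℚ (jL L '' supp T) with hB0
    set B := B0.map (LinearMap.inr ℚ ℚ (Fin (finrank ℤ L) → ℚ)) with hB
    have hAW : A ≤ W := by
      rw [hA, span_le]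
      intro v hv
      rw [Set.mem_singleton_iff.mp hv]
      exact h1W
    have hBW : B ≤ W := by
      rw [hB, hB0, Submodule.map_span, span_le]
      rintro _ ⟨_, ⟨a, ha, rfl⟩, rfl⟩
      obtain ⟨n, hn⟩ : ∃ n, (T.coeff a).coeff n ≠ 0 := by
        by_contra hcon
        push Not at hcon
        apply ha
        apply AddMonoidAlgebra.ext
        apply Finsupp.ext
        intro n
        rw [hcon n]; rfl
      have h2 : jp L (a, n) ∈ W := by
        apply subset_span
        show c (jp L (a, n)) ≠ 0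
        rw [hc, ct_apply]; exact hn
      have h3 : (LinearMap.inr ℚ ℚ (Fin (finrank ℤ L) → ℚ)) (jL L a) =
          jp L (a, n) - (n : ℚ) • ((1 : ℚ), (0 : Fin (finrank ℤ L) → ℚ)) := by
        rw [jp_apply]
        ext i
        · simp
        · simp
      rw [h3]
      exact W.sub_mem h2 (W.smul_mem _ h1W)
    have hWAB : W = A ⊔ B := by
      apply le_antisymm _ (sup_le hAW hBW)
      rw [hW, span_le]
      intro v hv
      have hvr : v ∈ Set.range (jp L) := by
        by_contra hcon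
        exact hv (ct_notin T hcon)
      obtain ⟨⟨a, n⟩, rfl⟩ := hvr
      have ha : a ∈ supp T := by
        intro h
        apply hv
        have h' : T.coeff a = 0 := h
        rw [hc, ct_apply, h']; rfl
      have h3 : jp L (a, n) = (n : ℚ) • ((1 : ℚ), (0 : Fin (finrank ℤ L) → ℚ)) +
          (LinearMap.inr ℚ ℚ (Fin (finrank ℤ L) → ℚ)) (jL L a) := by
        rw [jp_apply]
        ext i
        · simp
        · simp
      rw [h3]
      exact Submodule.add_mem_sup (A.smul_mem _ (subset_span rfl))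
        (mem_map_of_mem (subset_span ⟨a, ha, rfl⟩))
    have hinf : A ⊓ B = ⊥ := by
      rw [eq_bot_iff]
      rintro v ⟨hvA, hvB⟩
      obtain ⟨t, rfl⟩ := mem_span_singleton.mp hvA
      obtain ⟨y, -, hy⟩ := hvB
      have h4 := congrArg Prod.fst hy
      have h5 : (0 : ℚ) = t := by simpa using h4
      rw [← h5, zero_smul]
      exact zero_mem _
    have h4 := Submodule.finrank_sup_add_finrank_inf_eq A B
    rw [hinf, finrank_bot, add_zero, ← hWAB] at h4
    have h5 : finrank ℚ A = 1 := finrank_span_singleton (by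
      intro h
      have := congrArg Prod.fst h
      simp at this)
    have h6 : finrank ℚ B = finrank ℚ B0 :=
      (LinearEquiv.finrank_eq (Submodule.equivMapOfInjective _ LinearMap.inr_injective B0)).symm
    rw [h4, h5, h6, hB0, rk_rat (jL L) jL_inj (supp T)]
    ring
  have hsymW : ∀ w, cW (-w) = cW w := by
    intro w
    rw [hcW, hcW]
    exact ct_sym hT.1 w.1
  have hposW : ∀ χ : AddChar W Circle, 0 ≤ (cW.sum fun v a => (a : ℂ) * (χ v : ℂ)).re := by
    intro χ
    obtain ⟨pr, hpr⟩ := W.subtype.exists_leftInverse_of_injective W.ker_subtype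
    set χ' : AddChar (ℚ × (Fin (finrank ℤ L) → ℚ)) Circle :=
      χ.compAddMonoidHom pr.toAddMonoidHom with hχ'
    have h1 : (cW.sum fun v a => (a : ℂ) * (χ v : ℂ)) =
        c.sum fun v a => (a : ℂ) * (χ' v : ℂ) := by
      rw [← Finsupp.sum_comapDomain (Subtype.val : W → _) c (fun v a => (a : ℂ) * (χ' v : ℂ))]
      · refine Finsupp.sum_congr fun w _ => ?_
        show _ = ((cW w : ℤ) : ℂ) * ((χ (pr w.1) : Circle) : ℂ)
        have h2 : pr w.1 = w := LinearMap.congr_fun hpr w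
        rw [h2]
      · refine ⟨fun w hw => hw, Subtype.val_injective.injOn, ?_⟩
        intro v hv
        have hvS : v ∈ S := Finsupp.mem_support_iff.mp (Finset.mem_coe.mp hv)
        exact ⟨⟨v, subset_span hvS⟩, hv, rfl⟩
    rw [h1, hc, ct_val]
    exact hT.2 _ _
  have hspanW : span ℚ {w | cW w ≠ 0} = ⊤ := Submodule.span_span_coe_preimage
  have h0W : cW 0 = finrank ℚ W + 1 := by
    have h1 := hej 0
    rw [zero_smul] at h1
    rw [h1, h0, hrk]
    push_cast
    ring
  have key : ∀ j : ℤ, 0 < j → (T.coeff 0).coeff j ≠ 0 →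
      |(T.coeff 0).coeff j| = 1 ∧ ∀ i : ℤ, 0 < i → i < j → (T.coeff 0).coeff i = 0 := by
    intro j hj hcj
    have := line hSC hOne cW hsymW hposW hspanW h0W he0 hj (by rw [hej]; exact hcj)
    simpa only [hej] using this
  refine ⟨?_, (key m hm hcm).1.le⟩
  rcases lt_trichotomy m m' with h | h | h
  · exact absurd ((key m' hm' hcm').2 m hm h) hcm
  · exact h
  · exact absurd ((key m hm hcm).2 m' hm' h) hcm'

end

end Pool.Agent.B5.E1
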