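import Pool.Agent.Lib.MP_b5021c_nt.E1.H07.Nzr
import Pool.Agent.Lib.MP_b5021c_nt.E1.H17.Leg
import Pool.Agent.Lib.MP_b5021c_nt.E1.H18.Amb
import Pool.Agent.Lib.MP_b5021c_nt.E1.H78.Bas
import Pool.Agent.Lib.MP_b5021c_nt.E1.H84.Umr
import Pool.Agent.Lib.MP_b5021c_nt.E1.H80.Key
import Pool.Agent.Lib.MP_b5021c_nt.E1.H80.Srz
import Pool.Agent.Lib.MP_b5021c_nt.E1.H80.Snr
import Pool.Agent.Lib.MP_b5021c_nt.B.H76.E1Vfe

/-!
# MP_b5021c_nt, E1 for all `θ ≥ 2` (finding 3478): sharp SNT, unconditional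
-/

namespace Pool.Agent.B5.Nr

/-- Sharp SNT over `ℤ` (rational spaces). -/
theorem srz' : SrzS :=
  srz H18.amb (H78.bas H18.amb) Pool.Agent.B5.H17.leg H84.umr H43.cln H43.cla nzr
    Pool.Agent.B5.H76.e1r_cf0 (key Pool.Agent.B5.H76.e1r_vfe H43.cla)

/-- Sharp SNT over `ℤ`. -/
theorem snr' : SnrS := snr H18.amb srz'

end Pool.Agent.B5.Nr
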