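import Pool.Agent.Lib.MP_b5021c_nt.E1.Lin
import Pool.Agent.Lib.MP_b5021c_nt.E.H82.One
import Pool.Agent.Lib.MP_b5021c_nt.E.H03.Sc
import Pool.Agent.Lib.MP_b5021c_nt.E.H19.Sno

/-!
# MP_b5021c_nt, stage 3, chapter E1 complete: `snt : SntS` and `sno : SnoS`
-/

namespace Pool.Agent.B5.E1

open Pool.Agent.B5

/-- The line lemma. -/
theorem lin' : LinS := lin Pool.Agent.B5.H03.sc Pool.Agent.B5.E.H82.one

/-- (SNO) -/
theorem sno : SnoS := Pool.Agent.B5.E.H19.sno lin'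

end Pool.Agent.B5.E1
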