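import Mathlib

/-!
# MP_b5021c_nt, stage 3, E1: a weak form of the Motzkin-Hansen theorem

`S` a finite set spanning a rational vector space `V` of dimension `r ≥ 3`.  There are subspaces
`A, B ≠ 0`, spanned by elements of `S`, with `A ∩ B = 0`, `dim A + dim B + 1 = r`, `dim A` odd,
such that `S ∩ (A + B) ⊆ A ∪ B`.
-/

namespace Pool.Agent.B5.E1

open Submodule Module

variable {V : Type*} [AddCommGroup V] [Module ℚ V]

/-- `G` is a hyperplane of `K` spanned by elements of `S`. -/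
def SpH (S : Set V) (K G : Submodule ℚ V) : Prop :=
  G ≤ K ∧ span ℚ (S ∩ G) = G ∧ finrank ℚ G + 1 = finrank ℚ K

/-- Some spanned hyperplane of `K` contains neither `u` nor `v`. -/
def Lk (S : Set V) (K : Submodule ℚ V) (u v : V) : Prop := ∃ G, SpH S K G ∧ u ∉ G ∧ v ∉ G

theorem Lk.symm {S : Set V} {K : Submodule ℚ V} {u v : V} (h : Lk S K u v) : Lk S K v u := by
  obtain ⟨G, hG, hu, hv⟩ := h
  exact ⟨G, hG, hv, hu⟩

variable [FiniteDimensional ℚ V]

omit [FiniteDimensional ℚ V] in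
theorem finrank_single_le (u : V) : finrank ℚ (span ℚ ({u} : Set V)) ≤ 1 := by
  by_cases h : u = 0
  · rw [h, span_zero_singleton]
    simp
  · exact (finrank_span_singleton h).le

/-- Extension of a set of elements of `S` to a spanned hyperplane. -/
theorem exists_sph {S : Set V} {K : Submodule ℚ V} (hK : span ℚ (S ∩ K) = K) {X : Set V}
    (hX : X ⊆ S ∩ K) {u : V} (huK : u ∈ K) (hu : u ∉ span ℚ X) :
    ∃ G, SpH S K G ∧ X ⊆ G ∧ u ∉ G := by
  have hne : ({G : Submodule ℚ V | G ≤ K ∧ span ℚ (S ∩ G) = G ∧ X ⊆ G ∧ u ∉ G}).Nonempty := by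
    refine ⟨span ℚ X, ?_, ?_, subset_span, hu⟩
    · exact (span_mono hX).trans hK.le
    · apply le_antisymm
      · exact span_le.mpr fun x hx => hx.2
      · exact span_mono fun x hx => ⟨(hX hx).1, subset_span hx⟩
  obtain ⟨G, ⟨hGK, hGs, hXG, huG⟩, hmax⟩ :=
    WellFounded.has_min (wellFounded_gt (α := Submodule ℚ V)) _ hne
  have key : ∀ s ∈ S ∩ (K : Set V), s ∈ G ⊔ span ℚ {u} := by
    intro s hs
    by_cases hsG : s ∈ G
    · exact mem_sup_left hsG
    have hlt : G < G ⊔ span ℚ {s} := by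
      refine lt_of_le_of_ne le_sup_left ?_
      intro h
      exact hsG (h ▸ mem_sup_right (mem_span_singleton_self s))
    have hu' : u ∈ G ⊔ span ℚ {s} := by
      by_contra hcon
      refine hmax (G ⊔ span ℚ {s}) ⟨?_, ?_, ?_, hcon⟩ hlt
      · exact sup_le hGK ((span_singleton_le_iff_mem _ _).mpr hs.2)
      · apply le_antisymm
        · exact span_le.mpr fun x hx => hx.2
        · refine sup_le ?_ ?_
          · have h2 : span ℚ (S ∩ G) ≤ span ℚ (S ∩ (G ⊔ span ℚ {s} : Submodule ℚ V)) :=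
              span_mono fun x hx => ⟨hx.1, mem_sup_left hx.2⟩
            rwa [hGs] at h2
          · refine (span_singleton_le_iff_mem _ _).mpr (subset_span (Set.mem_inter hs.1 ?_))
            exact mem_sup_right (mem_span_singleton_self s)
      · exact fun x hx => mem_sup_left (hXG hx)
    obtain ⟨g, hg, y, hy, hgy⟩ := mem_sup.mp hu'
    obtain ⟨c, rfl⟩ := mem_span_singleton.mp hy
    have hc : c ≠ 0 := by
      rintro rfl
      apply huG
      rw [← hgy, zero_smul, add_zero]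
      exact hg
    have h1 : s = (-(c⁻¹)) • g + c⁻¹ • u := by
      rw [← hgy, smul_add, smul_smul, inv_mul_cancel₀ hc, one_smul, neg_smul]
      abel
    rw [h1]
    exact add_mem (mem_sup_left (smul_mem _ _ hg))
      (mem_sup_right (smul_mem _ _ (mem_span_singleton_self u)))
  have hKle : K ≤ G ⊔ span ℚ {u} := by
    rw [← hK]
    exact span_le.mpr key
  have hKeq : K = G ⊔ span ℚ {u} :=
    le_antisymm hKle (sup_le hGK ((span_singleton_le_iff_mem _ _).mpr huK))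
  refine ⟨G, ⟨hGK, hGs, ?_⟩, hXG, huG⟩
  have h1 : finrank ℚ G < finrank ℚ K := by
    apply Submodule.finrank_lt_finrank_of_lt
    refine lt_of_le_of_ne hGK ?_
    rintro rfl
    exact huG huK
  have h2 : finrank ℚ K ≤ finrank ℚ G + 1 := by
    rw [hKeq]
    refine (Submodule.finrank_add_le_finrank_add_finrank _ _).trans ?_
    exact Nat.add_le_add_left (finrank_single_le u) _
  omega

theorem SpH.eq_of_le {S : Set V} {K G G' : Submodule ℚ V} (h : SpH S K G) (h' : SpH S K G')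
    (hle : G ≤ G') : G = G' := by
  apply Submodule.eq_of_le_of_finrank_le hle
  have := h.2.2
  have := h'.2.2
  omega

/-- Two spanned hyperplanes: some element of `S` in `G` is not in `G'`. -/
theorem SpH.exists_mem {S : Set V} {K G G' : Submodule ℚ V} (h : SpH S K G) (h' : SpH S K G')
    {x : V} (hx : x ∉ G) (hx' : x ∈ G') : ∃ y ∈ S, y ∈ G ∧ y ∉ G' := by
  by_contra hcon
  push Not at hcon
  have hle : G ≤ G' := by
    rw [← h.2.1]
    exact span_le.mpr fun y hy => hcon y hy.1 hy.2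
  exact hx (h.eq_of_le h' hle ▸ hx')

/-- Transitivity of `Lk` through elements of `S`. -/
theorem Lk.trans {S : Set V} (hS : S.Finite) {K : Submodule ℚ V} (hK : span ℚ (S ∩ K) = K)
    {u c v : V} (hu : u ∈ K) (hv : v ∈ K) (hc : c ∈ S) (hcK : c ∈ K) (h1 : Lk S K u c)
    (h2 : Lk S K c v) : Lk S K u v := by
  classical
  by_contra hno
  obtain ⟨G₁, hG₁, hu₁, hc₁⟩ := h1
  obtain ⟨G₂, hG₂, hc₂, hv₂⟩ := h2
  let T : Set (Submodule ℚ V × Submodule ℚ V) := {p | SpH S K p.1 ∧ SpH S K p.2 ∧ u ∉ p.1 ∧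
    v ∉ p.2 ∧ ∃ h ∈ S, h ∈ K ∧ h ∉ p.1 ∧ h ∉ p.2}
  let f : Submodule ℚ V × Submodule ℚ V → ℕ := fun p => S.ncard - (S ∩ p.1 ∩ p.2).ncard
  have hT : T.Nonempty := ⟨(G₁, G₂), hG₁, hG₂, hu₁, hv₂, c, hc, hcK, hc₁, hc₂⟩
  obtain ⟨⟨A, B⟩, ⟨hA, hB, huA, hvB, h, hhS, hhK, hhA, hhB⟩, hmin⟩ :=
    WellFounded.has_min (measure f).wf T hT
  simp only [] at hA hB huA hvB hhA hhB
  have hmax : ∀ A' B' : Submodule ℚ V, (A', B') ∈ T → S ∩ A ∩ B ⊆ S ∩ A' ∩ B' →
      S ∩ A' ∩ B' ⊆ S ∩ A ∩ B := by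
    intro A' B' hmem hsub
    by_contra hcon
    have hlt : (S ∩ A ∩ B : Set V).ncard < (S ∩ A' ∩ B' : Set V).ncard :=
      Set.ncard_lt_ncard ⟨hsub, hcon⟩ ((hS.subset Set.inter_subset_left).subset
        Set.inter_subset_left)
    have hle : (S ∩ A' ∩ B' : Set V).ncard ≤ S.ncard :=
      Set.ncard_le_ncard (fun x hx => hx.1.1) hS
    apply hmin (A', B') hmem
    show S.ncard - (S ∩ A' ∩ B' : Set V).ncard < S.ncard - (S ∩ A ∩ B : Set V).ncard
    omega
  have hvA : v ∈ A := by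
    by_contra hvA
    exact hno ⟨A, hA, huA, hvA⟩
  have huB : u ∈ B := by
    by_contra huB
    exact hno ⟨B, hB, huB, hvB⟩
  -- extension sets
  have hXK : insert h (S ∩ A ∩ B) ⊆ S ∩ K := by
    rintro x (rfl | hx)
    · exact ⟨hhS, hhK⟩
    · exact ⟨hx.1.1, hA.1 hx.1.2⟩
  have hout : ∀ (P Q : Submodule ℚ V) (w : V), (S ∩ A ∩ B ⊆ P) → (S ∩ A ∩ B ⊆ Q) → w ∉ P →
      w ∈ Q → h ∉ Q → w ∉ span ℚ (insert h (S ∩ A ∩ B)) := by
    intro P Q w hP hQ hwP hwQ hhQ hw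
    rw [mem_span_insert] at hw
    obtain ⟨a, z, hz, rfl⟩ := hw
    have hzQ : z ∈ Q := (span_le.mpr hQ) hz
    have hzP : z ∈ P := (span_le.mpr hP) hz
    have ha : a • h ∈ Q := (Submodule.add_mem_iff_left _ hzQ).mp hwQ
    have ha0 : a = 0 := by
      by_contra ha0
      exact hhQ ((Submodule.smul_mem_iff _ ha0).mp ha)
    apply hwP
    rw [ha0, zero_smul, zero_add]
    exact hzP
  obtain ⟨C, hC, hXC, huC⟩ := exists_sph hK hXK hu
    (hout A B u (fun x hx => hx.1.2) (fun x hx => hx.2) huA huB hhB)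
  obtain ⟨D, hD, hXD, hvD⟩ := exists_sph hK hXK hv
    (hout B A v (fun x hx => hx.2) (fun x hx => hx.1.2) hvB hvA hhA)
  have hhC : h ∈ C := hXC (Set.mem_insert _ _)
  have hhD : h ∈ D := hXD (Set.mem_insert _ _)
  have hvC : v ∈ C := by
    by_contra hvC
    exact hno ⟨C, hC, huC, hvC⟩
  -- (C, B) admissible
  obtain ⟨x, hxS, hxA, hxC⟩ := hA.exists_mem hC hhA hhC
  have hxB : x ∉ B := fun hxB => hxC (hXC (Set.mem_insert_of_mem _ ⟨⟨hxS, hxA⟩, hxB⟩))
  have hCB : (C, B) ∈ T := ⟨hC, hB, huC, hvB, x, hxS, hA.1 hxA, hxC, hxB⟩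
  have hsub := hmax C B hCB (fun y hy => ⟨⟨hy.1.1, hXC (Set.mem_insert_of_mem _ hy)⟩, hy.2⟩)
  -- an element of `B` not in `D`
  obtain ⟨y, hyS, hyB, hyD⟩ := hB.exists_mem hD hhB hhD
  have hyA : y ∉ A := fun hyA => hyD (hXD (Set.mem_insert_of_mem _ ⟨⟨hyS, hyA⟩, hyB⟩))
  have hyC : y ∉ C := fun hyC => hyA (hsub ⟨⟨hyS, hyC⟩, hyB⟩).1.2
  have hCD : (C, D) ∈ T := ⟨hC, hD, huC, hvD, y, hyS, hB.1 hyB, hyC, hyD⟩
  have hsub' := hmax C D hCD (fun y hy => ⟨⟨hy.1.1, hXC (Set.mem_insert_of_mem _ hy)⟩,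
    hXD (Set.mem_insert_of_mem _ hy)⟩)
  exact hhA (hsub' ⟨⟨hhS, hhC⟩, hhD⟩).1.2

/-- Vectors not linked to a set `X`, `S ∩ K = X ∪ X'`, lie in the span of `X'`. -/
theorem mem_span_of_not_lk {S : Set V} {K : Submodule ℚ V} (hK : span ℚ (S ∩ K) = K)
    {X X' : Set V} (hX' : X' ⊆ S ∩ K) (hXX : S ∩ K ⊆ X ∪ X') {w : V} (hw : w ∈ K)
    (hno : ∀ x ∈ X, ¬ Lk S K x w) : w ∈ span ℚ X' := by
  by_contra hcon
  obtain ⟨G, hG, hXG, hwG⟩ := exists_sph hK hX' hw hcon
  have : K ≤ G := by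
    rw [← hK]
    refine span_le.mpr fun x hx => ?_
    rcases hXX hx with h | h
    · by_contra hxG
      exact hno x h ⟨G, hG, hxG, hwG⟩
    · exact hXG h
  exact hwG (this hw)

/-- Decomposition lemma. -/
theorem decomp {S : Set V} (hS : S.Finite) {K : Submodule ℚ V} (hK : span ℚ (S ∩ K) = K)
    {Y Z : Set V} (hY : Y ⊆ K) (hZ : Z ⊆ K) (hYZ : ∀ y ∈ Y, ∀ z ∈ Z, ¬ Lk S K y z) :
    ∃ P B : Submodule ℚ V, Disjoint P B ∧ P ⊔ B = K ∧ span ℚ (S ∩ P) = P ∧ span ℚ (S ∩ B) = B ∧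
      (∀ s ∈ S, s ∈ K → s ∈ P ∨ s ∈ B) ∧ Y ⊆ P ∧ Z ⊆ B := by
  classical
  let C : Set V := {c | c ∈ S ∧ c ∈ K ∧ ∃ y ∈ Y, Lk S K y c}
  let C' : Set V := {c | c ∈ S ∧ c ∈ K ∧ ∀ y ∈ Y, ¬ Lk S K y c}
  have hCK : C ⊆ S ∩ K := fun c hc => ⟨hc.1, hc.2.1⟩
  have hC'K : C' ⊆ S ∩ K := fun c hc => ⟨hc.1, hc.2.1⟩
  have hU : S ∩ K ⊆ C ∪ C' := by
    intro c hc
    by_cases h : ∃ y ∈ Y, Lk S K y c
    · exact Or.inl ⟨hc.1, hc.2, h⟩
    · push Not at h
      exact Or.inr ⟨hc.1, hc.2, h⟩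
  have hCC' : ∀ c ∈ C, ∀ c' ∈ C', ¬ Lk S K c c' := by
    rintro c ⟨hcS, hcK, y, hy, hyc⟩ c' ⟨hcS', hcK', hc'⟩ hl
    exact hc' y hy (Lk.trans hS hK (hY hy) hcK' hcS hcK hyc hl)
  have hCZ : ∀ c ∈ C, ∀ z ∈ Z, ¬ Lk S K c z := by
    rintro c ⟨hcS, hcK, y, hy, hyc⟩ z hz hl
    exact hYZ y hy z hz (Lk.trans hS hK (hY hy) (hZ hz) hcS hcK hyc hl)
  have hspan : ∀ X : Set V, X ⊆ S ∩ K → span ℚ (S ∩ (span ℚ X : Submodule ℚ V)) = span ℚ X := by
    intro X hX
    apply le_antisymm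
    · exact span_le.mpr fun x hx => hx.2
    · exact span_mono fun x hx => ⟨(hX hx).1, subset_span hx⟩
  refine ⟨span ℚ C, span ℚ C', ?_, ?_, hspan C hCK, hspan C' hC'K, ?_, ?_, ?_⟩
  · rw [Submodule.disjoint_def]
    intro w hw hw'
    by_contra hw0
    have hwK : w ∈ K := hK ▸ (span_mono hCK) hw
    obtain ⟨G, hG, -, hwG⟩ := exists_sph hK (X := ∅) (Set.empty_subset _) hwK
      (by rw [span_empty]; exact fun h => hw0 ((mem_bot ℚ).mp h))
    have h1 : ∃ c ∈ C, c ∉ G := by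
      by_contra hcon
      push Not at hcon
      exact hwG ((span_le.mpr hcon) hw)
    have h2 : ∃ c ∈ C', c ∉ G := by
      by_contra hcon
      push Not at hcon
      exact hwG ((span_le.mpr hcon) hw')
    obtain ⟨c, hc, hcG⟩ := h1
    obtain ⟨c', hc', hcG'⟩ := h2
    exact hCC' c hc c' hc' ⟨G, hG, hcG, hcG'⟩
  · rw [← span_union]
    apply le_antisymm
    · calc span ℚ (C ∪ C') ≤ span ℚ (S ∩ K) := span_mono (Set.union_subset hCK hC'K)
        _ = K := hK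
    · calc K = span ℚ (S ∩ K) := hK.symm
        _ ≤ _ := span_mono hU
  · intro s hs hsK
    rcases hU ⟨hs, hsK⟩ with h | h
    · exact Or.inl (subset_span h)
    · exact Or.inr (subset_span h)
  · intro y hy
    exact mem_span_of_not_lk hK (X := C') hCK (by rw [Set.union_comm]; exact hU) (hY hy)
      (fun c' hc' hl => hc'.2.2 y hy hl.symm)
  · intro z hz
    exact mem_span_of_not_lk hK hC'K hU (hZ hz) (fun c hc => hCZ c hc z hz)

/-! ## The top hyperplane -/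

/-- Functionals with value `1` at `e` whose kernel is spanned by elements of `S`. -/
def Lam (S : Set V) (e : V) : Set (Dual ℚ V) :=
  {l | l e = 1 ∧ span ℚ (S ∩ LinearMap.ker l) = LinearMap.ker l}

omit [FiniteDimensional ℚ V] in
theorem lam_finite {S : Set V} (hS : S.Finite) (e : V) : (Lam S e).Finite := by
  refine Set.Finite.of_finite_image (f := fun l => S ∩ (LinearMap.ker l : Set V))
    (hS.finite_subsets.subset ?_) ?_
  · rintro _ ⟨l, -, rfl⟩
    exact Set.inter_subset_left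
  · intro l hl l' hl' h
    simp only [] at h
    have hk : LinearMap.ker l = LinearMap.ker l' := by rw [← hl.2, ← hl'.2, h]
    ext x
    have hx : x - l x • e ∈ LinearMap.ker l := by
      rw [LinearMap.mem_ker, map_sub, map_smul, hl.1, smul_eq_mul, mul_one, sub_self]
    rw [hk, LinearMap.mem_ker, map_sub, map_smul, hl'.1, smul_eq_mul, mul_one] at hx
    linarith

theorem lam_nonempty {S : Set V} (hspan : span ℚ S = ⊤) {e : V} (he : e ≠ 0) :
    (Lam S e).Nonempty := by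
  have hK : span ℚ (S ∩ (⊤ : Submodule ℚ V)) = ⊤ := by simpa using hspan
  obtain ⟨G, hG, -, heG⟩ := exists_sph hK (X := ∅) (Set.empty_subset _) (u := e) mem_top
    (by rw [span_empty]; exact fun h => he ((mem_bot ℚ).mp h))
  obtain ⟨f, hfe, hGf⟩ := Submodule.exists_le_ker_of_notMem heG
  have hker : G = LinearMap.ker f := by
    apply Submodule.eq_of_le_of_finrank_le hGf
    have h1 : finrank ℚ (LinearMap.ker f) < finrank ℚ V := by
      apply Submodule.finrank_lt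
      intro h
      apply hfe
      have : e ∈ LinearMap.ker f := h ▸ mem_top
      exact this
    have h2 := hG.2.2
    rw [finrank_top] at h2
    omega
  refine ⟨(f e)⁻¹ • f, ?_, ?_⟩
  · rw [LinearMap.smul_apply, smul_eq_mul, inv_mul_cancel₀ hfe]
  · have : LinearMap.ker ((f e)⁻¹ • f) = LinearMap.ker f :=
      LinearMap.ker_smul f _ (inv_ne_zero hfe)
    rw [this, ← hker]
    exact hG.2.1

/-- The top functional. -/
theorem exists_top {S : Set V} (hS : S.Finite) (hspan : span ℚ S = ⊤) {e : V} (he : e ≠ 0) :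
    ∃ l₀ ∈ Lam S e, ∃ q : V, ∀ l ∈ Lam S e, l ≠ l₀ → l₀ q < l q := by
  have hfin := lam_finite hS e
  let ι := {p : Lam S e × Lam S e // p.1 ≠ p.2}
  have : Finite (Lam S e) := hfin
  have : Finite ι := inferInstance
  obtain ⟨q, hq⟩ := Module.Dual.exists_forall_ne_zero_of_forall_exists
    (fun i : ι => ((i.1.1 : Dual ℚ V) - (i.1.2 : Dual ℚ V))) (by
      rintro ⟨⟨l, l'⟩, hne⟩
      by_contra hcon
      push Not at hcon
      apply hne
      apply Subtype.ext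
      ext x
      have := hcon x
      simp only [LinearMap.sub_apply] at this
      linarith)
  obtain ⟨l₀, hl₀, hmin⟩ := Set.exists_min_image (Lam S e) (fun l => l q) hfin
    (lam_nonempty hspan he)
  refine ⟨l₀, hl₀, q, fun l hl hne => lt_of_le_of_ne (hmin l hl) ?_⟩
  intro h
  have := hq ⟨(⟨l, hl⟩, ⟨l₀, hl₀⟩), fun h' => hne (congrArg Subtype.val h')⟩
  apply this
  simp only [LinearMap.sub_apply]
  linarith

omit [FiniteDimensional ℚ V] in
/-- The sign rule. -/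
theorem sign_rule {S : Set V} {e : V} {l₀ : Dual ℚ V} (hl₀ : l₀ ∈ Lam S e) {q : V}
    (hmin : ∀ l ∈ Lam S e, l ≠ l₀ → l₀ q < l q) {k : Dual ℚ V} (hke : k e = 0)
    (hks : span ℚ (S ∩ (LinearMap.ker l₀ ⊓ LinearMap.ker k : Submodule ℚ V)) =
      LinearMap.ker l₀ ⊓ LinearMap.ker k) {s : V} (hs : s ∈ S) (hls : l₀ s ≠ 0) (hk : k s ≠ 0) :
    k s * l₀ s * k q < 0 := by
  set l : Dual ℚ V := l₀ - (l₀ s / k s) • k with hl
  have hlx : ∀ x, l x = l₀ x - l₀ s / k s * k x := fun x => by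
    rw [hl, LinearMap.sub_apply, LinearMap.smul_apply, smul_eq_mul]
  have hls0 : l s = 0 := by
    rw [hlx]
    field_simp
    ring
  have hmem : l ∈ Lam S e := by
    refine ⟨by rw [hlx, hke, hl₀.1]; ring, le_antisymm (span_le.mpr fun x hx => hx.2) ?_⟩
    intro x hx
    have hx0 : l x = 0 := hx
    have h1 : x - (l₀ x / l₀ s) • s ∈ LinearMap.ker l₀ ⊓ LinearMap.ker k := by
      refine ⟨?_, ?_⟩
      · show l₀ (x - (l₀ x / l₀ s) • s) = 0
        rw [map_sub, map_smul, smul_eq_mul]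
        field_simp
        ring
      · show k (x - (l₀ x / l₀ s) • s) = 0
        rw [map_sub, map_smul, smul_eq_mul]
        rw [hlx] at hx0
        field_simp at hx0 ⊢
        linarith
    have h2 : x - (l₀ x / l₀ s) • s ∈ span ℚ (S ∩ LinearMap.ker l) := by
      rw [← hks] at h1
      refine (span_mono ?_) h1
      intro y hy
      refine ⟨hy.1, ?_⟩
      have hy1 : l₀ y = 0 := hy.2.1
      have hy2 : k y = 0 := hy.2.2
      show l y = 0
      rw [hlx, hy1, hy2]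
      ring
    have h3 : s ∈ span ℚ (S ∩ LinearMap.ker l) := subset_span ⟨hs, hls0⟩
    have h4 : x = (x - (l₀ x / l₀ s) • s) + (l₀ x / l₀ s) • s := by abel
    rw [h4]
    exact add_mem h2 (smul_mem _ _ h3)
  have hne : l ≠ l₀ := by
    intro h
    rw [h] at hls0
    exact hls hls0
  have h5 := hmin l hmem hne
  rw [hlx] at h5
  have h6 : l₀ s / k s * k q < 0 := by linarith
  have h7 : k s * l₀ s * k q = (k s) ^ 2 * (l₀ s / k s * k q) := by
    field_simp
  rw [h7]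
  exact mul_neg_of_pos_of_neg (by positivity) h6

/-- Normalised spanned functionals vanishing at `e`. -/
def Gd (S : Set V) (e : V) (l₀ : Dual ℚ V) (q : V) (k : Dual ℚ V) : Prop :=
  k e = 0 ∧ span ℚ (S ∩ (LinearMap.ker l₀ ⊓ LinearMap.ker k : Submodule ℚ V)) =
      LinearMap.ker l₀ ⊓ LinearMap.ker k ∧ k q ≤ 0 ∧ k ≠ 0

omit [FiniteDimensional ℚ V] in
theorem Gd.pos {S : Set V} {e : V} {l₀ : Dual ℚ V} (hl₀ : l₀ ∈ Lam S e) {q : V}
    (hmin : ∀ l ∈ Lam S e, l ≠ l₀ → l₀ q < l q) {k : Dual ℚ V} (hk : Gd S e l₀ q k)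
    {s : V} (hs : s ∈ S) (hls : l₀ s ≠ 0) (hks : k s ≠ 0) : 0 < k s * l₀ s := by
  have h1 := sign_rule hl₀ hmin hk.1 hk.2.1 hs hls hks
  by_contra hcon
  push Not at hcon
  have := mul_nonneg_of_nonpos_of_nonpos hcon hk.2.2.1
  linarith

omit [FiniteDimensional ℚ V] in
theorem Gd.nonneg {S : Set V} {e : V} {l₀ : Dual ℚ V} (hl₀ : l₀ ∈ Lam S e) {q : V}
    (hmin : ∀ l ∈ Lam S e, l ≠ l₀ → l₀ q < l q) {k : Dual ℚ V} (hk : Gd S e l₀ q k)
    {s : V} (hs : s ∈ S) (hls : l₀ s ≠ 0) : 0 ≤ k s * l₀ s := by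
  by_cases h : k s = 0
  · rw [h, zero_mul]
  · exact (hk.pos hl₀ hmin hs hls h).le

theorem finrank_ker_inf {l₀ k : Dual ℚ V} {x : V} (hk : k x ≠ 0) (hx : l₀ x = 0) :
    finrank ℚ (LinearMap.ker l₀ ⊓ LinearMap.ker k : Submodule ℚ V) + 1 =
      finrank ℚ (LinearMap.ker l₀) := by
  have hk0 : k ≠ 0 := by
    rintro rfl
    exact hk rfl
  have h1 := Module.Dual.finrank_ker_add_one_of_ne_zero hk0
  have h2 := Submodule.finrank_sup_add_finrank_inf_eq (LinearMap.ker l₀) (LinearMap.ker k)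
  have h3 : finrank ℚ (LinearMap.ker k) <
      finrank ℚ (LinearMap.ker l₀ ⊔ LinearMap.ker k : Submodule ℚ V) := by
    apply Submodule.finrank_lt_finrank_of_lt
    refine lt_of_le_of_ne le_sup_right ?_
    intro h
    apply hk
    have : x ∈ LinearMap.ker k := h ▸ mem_sup_left (show x ∈ LinearMap.ker l₀ from hx)
    exact this
  have h4 : finrank ℚ (LinearMap.ker l₀ ⊔ LinearMap.ker k : Submodule ℚ V) ≤ finrank ℚ V :=
    Submodule.finrank_le _
  omega

theorem mk_gd {S : Set V} {e : V} {l₀ : Dual ℚ V} (hl₀ : l₀ ∈ Lam S e) (q : V)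
    {G : Submodule ℚ V} (hG : SpH S (LinearMap.ker l₀) G) :
    ∃ k, Gd S e l₀ q k ∧ LinearMap.ker l₀ ⊓ LinearMap.ker k = G := by
  have hlt : G < LinearMap.ker l₀ := by
    refine lt_of_le_of_ne hG.1 ?_
    rintro h
    have := hG.2.2
    rw [h] at this
    omega
  obtain ⟨u, hu, huG⟩ := SetLike.exists_of_lt hlt
  have hu' : u ∉ G ⊔ span ℚ {e} := by
    intro h
    obtain ⟨g, hg, y, hy, hgy⟩ := mem_sup.mp h
    obtain ⟨c, rfl⟩ := mem_span_singleton.mp hy
    have h1 : l₀ g = 0 := hG.1 hg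
    have h2 : l₀ u = 0 := hu
    have h3 : c = 0 := by
      rw [← hgy, map_add, map_smul, h1, hl₀.1] at h2
      simpa using h2
    apply huG
    rw [← hgy, h3, zero_smul, add_zero]
    exact hg
  obtain ⟨f, hfu, hGf⟩ := Submodule.exists_le_ker_of_notMem hu'
  have hfe : f e = 0 := hGf (mem_sup_right (mem_span_singleton_self e))
  have hmk : ∀ k : Dual ℚ V, k u ≠ 0 → (∀ g ∈ G, k g = 0) →
      LinearMap.ker l₀ ⊓ LinearMap.ker k = G := by
    intro k hku hkG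
    symm
    apply Submodule.eq_of_le_of_finrank_le
    · exact le_inf hG.1 (fun g hg => hkG g hg)
    · have h1 := finrank_ker_inf (l₀ := l₀) hku hu
      have h2 := hG.2.2
      omega
  have hfG : ∀ g ∈ G, f g = 0 := fun g hg => hGf (mem_sup_left hg)
  rcases le_total (f q) 0 with hq | hq
  · refine ⟨f, ⟨hfe, ?_, hq, ?_⟩, hmk f hfu hfG⟩
    · rw [hmk f hfu hfG]; exact hG.2.1
    · rintro rfl; exact hfu rfl
  · have h1 : (-f) u ≠ 0 := by rw [LinearMap.neg_apply]; exact neg_ne_zero.mpr hfu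
    have h2 : ∀ g ∈ G, (-f) g = 0 := fun g hg => by rw [LinearMap.neg_apply, hfG g hg, neg_zero]
    refine ⟨-f, ⟨by rw [LinearMap.neg_apply, hfe, neg_zero], ?_, ?_, ?_⟩, hmk _ h1 h2⟩
    · rw [hmk _ h1 h2]; exact hG.2.1
    · rw [LinearMap.neg_apply]; linarith
    · intro h; rw [h] at h1; exact h1 rfl

/-- The minimal functional: the two-element pencils. -/
theorem exists_min_gd {S : Set V} (hS : S.Finite) {e : V} {l₀ : Dual ℚ V} (hl₀ : l₀ ∈ Lam S e)
    {q : V} (hmin : ∀ l ∈ Lam S e, l ≠ l₀ → l₀ q < l q)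
    (h2 : 2 ≤ finrank ℚ (LinearMap.ker l₀)) :
    ∃ k, Gd S e l₀ q k ∧ ∀ G, SpH S (LinearMap.ker l₀ ⊓ LinearMap.ker k) G →
      ∀ s ∈ S, l₀ s ≠ 0 → k s = 0 → s - l₀ s • e ∉ G →
      ∀ s₀ ∈ S, l₀ s₀ = 0 → k s₀ ≠ 0 → ∀ t ∈ S, l₀ t = 0 → k t ≠ 0 → t ∈ G ⊔ span ℚ {s₀} := by
  classical
  have hne : ({k | Gd S e l₀ q k}).Nonempty := by
    have hlt : ∃ u ∈ LinearMap.ker l₀, u ≠ 0 := by
      apply Submodule.exists_mem_ne_zero_of_ne_bot
      intro h
      rw [h, finrank_bot] at h2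
      omega
    obtain ⟨u, hu, hu0⟩ := hlt
    obtain ⟨G, hG, -, -⟩ := exists_sph hl₀.2 (X := ∅) (Set.empty_subset _) hu
      (by rw [span_empty]; exact fun h => hu0 ((mem_bot ℚ).mp h))
    obtain ⟨k, hk, -⟩ := mk_gd hl₀ q hG
    exact ⟨k, hk⟩
  let f : Dual ℚ V → ℕ := fun k => ({s ∈ S | l₀ s ≠ 0 ∧ k s = 0}).ncard
  obtain ⟨k, hk, hkmin⟩ := WellFounded.has_min (measure f).wf _ hne
  have hfew : ∀ k', Gd S e l₀ q k' → (∀ x ∈ S, l₀ x ≠ 0 → k' x = 0 → k x = 0) →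
      ∀ s ∈ S, l₀ s ≠ 0 → k s = 0 → k' s = 0 := by
    intro k' hk' hsub s hs hls hks
    by_contra hcon
    apply hkmin k' hk'
    show ({s ∈ S | l₀ s ≠ 0 ∧ k' s = 0}).ncard < ({s ∈ S | l₀ s ≠ 0 ∧ k s = 0}).ncard
    apply Set.ncard_lt_ncard _ (hS.subset (fun x hx => hx.1))
    refine ⟨fun x hx => ⟨hx.1, hx.2.1, hsub x hx.1 hx.2.1 hx.2.2⟩, ?_⟩
    intro hsub'
    exact hcon (hsub' ⟨hs, hls, hks⟩).2.2
  refine ⟨k, hk, ?_⟩
  intro G hG s hs hls hks hsG s₀ hs₀ hl₀s₀ hks₀ t ht hl₀t hkt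
  by_contra htG
  set K : Submodule ℚ V := LinearMap.ker l₀ ⊓ LinearMap.ker k with hKdef
  have hKfr : finrank ℚ K + 1 = finrank ℚ (LinearMap.ker l₀) := finrank_ker_inf hks₀ hl₀s₀
  have hGk : ∀ g ∈ G, k g = 0 := fun g hg => (hG.1 hg).2
  have hGl : ∀ g ∈ G, l₀ g = 0 := fun g hg => (hG.1 hg).1
  -- the spanned hyperplane `G + s₀`
  have hsp : ∀ w ∈ S, l₀ w = 0 → k w ≠ 0 → SpH S (LinearMap.ker l₀) (G ⊔ span ℚ {w}) := by
    intro w hw hlw hkw
    have hwG : w ∉ G := fun h => hkw (hGk w h)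
    refine ⟨sup_le (fun g hg => hGl g hg) ((span_singleton_le_iff_mem _ _).mpr hlw), ?_, ?_⟩
    · apply le_antisymm
      · exact span_le.mpr fun x hx => hx.2
      · refine sup_le ?_ ?_
        · have h3 : span ℚ (S ∩ G) ≤ span ℚ (S ∩ (G ⊔ span ℚ {w} : Submodule ℚ V)) :=
            span_mono fun x hx => ⟨hx.1, mem_sup_left hx.2⟩
          rwa [hG.2.1] at h3
        · refine (span_singleton_le_iff_mem _ _).mpr (subset_span (Set.mem_inter hw ?_))
          exact mem_sup_right (mem_span_singleton_self w)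
    · have h3 : finrank ℚ G < finrank ℚ (G ⊔ span ℚ {w} : Submodule ℚ V) := by
        apply Submodule.finrank_lt_finrank_of_lt
        refine lt_of_le_of_ne le_sup_left ?_
        intro h
        exact hwG (h ▸ mem_sup_right (mem_span_singleton_self w))
      have h4 : finrank ℚ (G ⊔ span ℚ {w} : Submodule ℚ V) ≤ finrank ℚ G + 1 :=
        (Submodule.finrank_add_le_finrank_add_finrank _ _).trans
          (Nat.add_le_add_left (finrank_single_le w) _)
      have h5 := hG.2.2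
      omega
  obtain ⟨k₀, hk₀, hk₀G⟩ := mk_gd hl₀ q (hsp s₀ hs₀ hl₀s₀ hks₀)
  have hk₀t : k₀ t ≠ 0 := by
    intro h
    apply htG
    rw [← hk₀G]
    exact ⟨hl₀t, h⟩
  have hk₀s₀ : k₀ s₀ = 0 := by
    have : s₀ ∈ LinearMap.ker l₀ ⊓ LinearMap.ker k₀ :=
      hk₀G ▸ mem_sup_right (mem_span_singleton_self s₀)
    exact this.2
  have hk₀Gz : ∀ g ∈ G, k₀ g = 0 := fun g hg => by
    have : g ∈ LinearMap.ker l₀ ⊓ LinearMap.ker k₀ := hk₀G ▸ mem_sup_left hg
    exact this.2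
  -- value at `s`
  have hk₀s : k₀ s ≠ 0 := by
    intro h
    have h3 : s - l₀ s • e ∈ LinearMap.ker l₀ ⊓ LinearMap.ker k₀ := by
      refine ⟨?_, ?_⟩
      · show l₀ (s - l₀ s • e) = 0
        rw [map_sub, map_smul, hl₀.1, smul_eq_mul]; ring
      · show k₀ (s - l₀ s • e) = 0
        rw [map_sub, map_smul, hk₀.1, h, smul_eq_mul]; ring
    rw [hk₀G] at h3
    obtain ⟨g, hg, y, hy, hgy⟩ := mem_sup.mp h3
    obtain ⟨c, rfl⟩ := mem_span_singleton.mp hy
    have h4 : k (s - l₀ s • e) = 0 := by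
      rw [map_sub, map_smul, hk.1, hks, smul_eq_mul]; ring
    have h5 : c = 0 := by
      rw [← hgy, map_add, map_smul, hGk g hg, smul_eq_mul, zero_add] at h4
      exact (mul_eq_zero.mp h4).resolve_right hks₀
    apply hsG
    rw [← hgy, h5, zero_smul, add_zero]
    exact hg
  -- the third functional
  set a := k₀ t with ha
  set b := k t with hb
  set k₁ : Dual ℚ V := a • k - b • k₀ with hk₁
  have hk₁x : ∀ x, k₁ x = a * k x - b * k₀ x := fun x => by
    rw [hk₁, LinearMap.sub_apply, LinearMap.smul_apply, LinearMap.smul_apply, smul_eq_mul,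
      smul_eq_mul]
  have hk₁s₀ : k₁ s₀ ≠ 0 := by
    rw [hk₁x, hk₀s₀, mul_zero, sub_zero]
    exact mul_ne_zero hk₀t hks₀
  have hk₁G : LinearMap.ker l₀ ⊓ LinearMap.ker k₁ = G ⊔ span ℚ {t} := by
    symm
    apply Submodule.eq_of_le_of_finrank_le
    · refine sup_le (fun g hg => ⟨hGl g hg, ?_⟩) ((span_singleton_le_iff_mem _ _).mpr ⟨hl₀t, ?_⟩)
      · show k₁ g = 0
        rw [hk₁x, hGk g hg, hk₀Gz g hg]; ring
      · show k₁ t = 0
        rw [hk₁x]; ring
    · have h3 := finrank_ker_inf (l₀ := l₀) hk₁s₀ hl₀s₀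
      have h4 := (hsp t ht hl₀t hkt).2.2
      omega
  have hk₁e : k₁ e = 0 := by rw [hk₁x, hk.1, hk₀.1]; ring
  have hk₁sp : span ℚ (S ∩ (LinearMap.ker l₀ ⊓ LinearMap.ker k₁ : Submodule ℚ V)) =
      LinearMap.ker l₀ ⊓ LinearMap.ker k₁ := by
    rw [hk₁G]
    exact (hsp t ht hl₀t hkt).2.1
  have hsign := fun x (hx : x ∈ S) (hlx : l₀ x ≠ 0) (hkx : k₁ x ≠ 0) =>
    sign_rule hl₀ hmin hk₁e hk₁sp hx hlx hkx
  have hkn := fun x (hx : x ∈ S) (hlx : l₀ x ≠ 0) => hk.nonneg hl₀ hmin hx hlx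
  have hk₀n := fun x (hx : x ∈ S) (hlx : l₀ x ≠ 0) => hk₀.nonneg hl₀ hmin hx hlx
  have hk₀sp : 0 < k₀ s * l₀ s := hk₀.pos hl₀ hmin hs hls hk₀s
  have hk₁s : k₁ s ≠ 0 := by
    rw [hk₁x, hks, mul_zero, zero_sub]
    exact neg_ne_zero.mpr (mul_ne_zero hkt hk₀s)
  have hs₁ := hsign s hs hls hk₁s
  have hk₁sv : k₁ s * l₀ s = - b * (k₀ s * l₀ s) := by rw [hk₁x, hks]; ring
  -- zeros of `k₀` are zeros of `k`, or `± k₁` is good with fewer zeros
  by_cases hab : 0 < a * b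
  · -- `b k₀ = a k - k₁`
    apply hk₀s
    refine hfew k₀ hk₀ ?_ s hs hls hks
    intro x hx hlx hk₀x
    by_contra hkx
    have h3 : k₁ x = a * k x := by rw [hk₁x, hk₀x]; ring
    have h4 : k₁ x ≠ 0 := by rw [h3]; exact mul_ne_zero hk₀t hkx
    have h5 := hsign x hx hlx h4
    have h6 : 0 < k x * l₀ x := hk.pos hl₀ hmin hx hlx hkx
    have h7 : k₁ x * l₀ x = a * (k x * l₀ x) := by rw [h3]; ring
    rw [h7] at h5
    rw [hk₁sv] at hs₁
    -- a * (+) * k₁ q < 0 and - b * (+) * k₁ q < 0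
    have h8 : a * k₁ q < 0 := by
      by_contra hc
      push Not at hc
      have : 0 ≤ (k x * l₀ x) * (a * k₁ q) := mul_nonneg h6.le hc
      nlinarith
    have h9 : 0 < b * k₁ q := by
      by_contra hc
      push Not at hc
      have : (k₀ s * l₀ s) * (b * k₁ q) ≤ 0 := mul_nonpos_of_nonneg_of_nonpos hk₀sp.le hc
      nlinarith
    have h10 : (a * k₁ q) * (b * k₁ q) < 0 := mul_neg_of_neg_of_pos h8 h9
    have h11 : (a * k₁ q) * (b * k₁ q) = a * b * (k₁ q) ^ 2 := by ring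
    rw [h11] at h10
    have := mul_nonneg hab.le (sq_nonneg (k₁ q))
    linarith
  · have hab' : a * b < 0 := by
      rcases lt_trichotomy (a * b) 0 with h | h | h
      · exact h
      · exact absurd h (mul_ne_zero hk₀t hkt)
      · exact absurd h hab
    -- zeros of `k₁` are zeros of `k`
    have hz : ∀ x ∈ S, l₀ x ≠ 0 → k₁ x = 0 → k x = 0 := by
      intro x hx hlx hk₁x0
      have h3 := hkn x hx hlx
      have h4 := hk₀n x hx hlx
      have h5 : a * (k x * l₀ x) = b * (k₀ x * l₀ x) := by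
        rw [hk₁x] at hk₁x0
        have : a * k x = b * k₀ x := by linarith
        calc a * (k x * l₀ x) = (a * k x) * l₀ x := by ring
          _ = (b * k₀ x) * l₀ x := by rw [this]
          _ = _ := by ring
      have h6 : (a * (k x * l₀ x)) * a = a * b * (k₀ x * l₀ x) := by rw [h5]; ring
      have h7 : a * b * (k₀ x * l₀ x) ≤ 0 := mul_nonpos_of_nonpos_of_nonneg hab'.le h4
      have h8 : 0 ≤ (a * (k x * l₀ x)) * a := by
        have : (a * (k x * l₀ x)) * a = a ^ 2 * (k x * l₀ x) := by ring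
        rw [this]
        exact mul_nonneg (sq_nonneg a) h3
      have h9 : a ^ 2 * (k x * l₀ x) = 0 := by
        have : (a * (k x * l₀ x)) * a = a ^ 2 * (k x * l₀ x) := by ring
        linarith
      rcases mul_eq_zero.mp h9 with h10 | h10
      · exact absurd (pow_eq_zero_iff (two_ne_zero)|>.mp h10) hk₀t
      · exact (mul_eq_zero.mp h10).resolve_right hlx
    apply hk₁s
    rcases le_total (k₁ q) 0 with hq | hq
    · refine hfew k₁ ⟨hk₁e, hk₁sp, hq, ?_⟩ hz s hs hls hks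
      intro h
      rw [h] at hk₁s₀
      exact hk₁s₀ rfl
    · have hker : LinearMap.ker (-k₁) = LinearMap.ker k₁ := by
        ext x
        simp
      have h3 : (-k₁) s = 0 := by
        refine hfew (-k₁) ⟨by rw [LinearMap.neg_apply, hk₁e, neg_zero], by rw [hker]; exact hk₁sp,
          by rw [LinearMap.neg_apply]; linarith, ?_⟩ ?_ s hs hls hks
        · intro h
          have : (-k₁) s₀ = 0 := by rw [h]; rfl
          rw [LinearMap.neg_apply, neg_eq_zero] at this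
          exact hk₁s₀ this
        · intro x hx hlx h
          rw [LinearMap.neg_apply, neg_eq_zero] at h
          exact hz x hx hlx h
      rwa [LinearMap.neg_apply, neg_eq_zero] at h3


omit [FiniteDimensional ℚ V] in
theorem spanned_sup {S : Set V} {P Q : Submodule ℚ V} (hP : span ℚ (S ∩ P) = P)
    (hQ : span ℚ (S ∩ Q) = Q) : span ℚ (S ∩ (P ⊔ Q : Submodule ℚ V)) = P ⊔ Q := by
  apply le_antisymm
  · exact span_le.mpr fun x hx => hx.2
  · refine sup_le ?_ ?_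
    · have h3 : span ℚ (S ∩ P) ≤ span ℚ (S ∩ (P ⊔ Q : Submodule ℚ V)) :=
        span_mono fun x hx => ⟨hx.1, mem_sup_left hx.2⟩
      rwa [hP] at h3
    · have h3 : span ℚ (S ∩ Q) ≤ span ℚ (S ∩ (P ⊔ Q : Submodule ℚ V)) :=
        span_mono fun x hx => ⟨hx.1, mem_sup_right hx.2⟩
      rwa [hQ] at h3

omit [FiniteDimensional ℚ V] in
theorem spanned_single {S : Set V} {s : V} (hs : s ∈ S) :
    span ℚ (S ∩ (span ℚ {s} : Submodule ℚ V)) = span ℚ {s} := by
  apply le_antisymm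
  · exact span_le.mpr fun x hx => hx.2
  · exact (span_singleton_le_iff_mem _ _).mpr
      (subset_span (Set.mem_inter hs (mem_span_singleton_self s)))

theorem finrank_sup_single {P : Submodule ℚ V} {s : V} (hs : s ∉ P) :
    finrank ℚ (P ⊔ span ℚ {s} : Submodule ℚ V) = finrank ℚ P + 1 := by
  have h3 : finrank ℚ P < finrank ℚ (P ⊔ span ℚ {s} : Submodule ℚ V) := by
    apply Submodule.finrank_lt_finrank_of_lt
    refine lt_of_le_of_ne le_sup_left ?_
    intro h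
    exact hs (h ▸ mem_sup_right (mem_span_singleton_self s))
  have h4 : finrank ℚ (P ⊔ span ℚ {s} : Submodule ℚ V) ≤ finrank ℚ P + 1 :=
    (Submodule.finrank_add_le_finrank_add_finrank _ _).trans
      (Nat.add_le_add_left (finrank_single_le s) _)
  omega

/-- **Theorem W** (weak Motzkin-Hansen). -/
theorem thw {S : Set V} (hS : S.Finite) (hspan : span ℚ S = ⊤) (hr : 3 ≤ finrank ℚ V) :
    ∃ A B : Submodule ℚ V, Disjoint A B ∧ span ℚ (S ∩ A) = A ∧ span ℚ (S ∩ B) = B ∧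
      B ≠ ⊥ ∧ Odd (finrank ℚ A) ∧ finrank ℚ A + finrank ℚ B + 1 = finrank ℚ V ∧
      ∀ s ∈ S, s ∈ A ⊔ B → s ∈ A ∨ s ∈ B := by
  classical
  obtain ⟨e, heS, he0⟩ : ∃ e ∈ S, e ≠ 0 := by
    by_contra hcon
    push Not at hcon
    have h1 : span ℚ S ≤ ⊥ := span_le.mpr fun x hx => (mem_bot ℚ).mpr (hcon x hx)
    rw [hspan] at h1
    have h2 : finrank ℚ (⊤ : Submodule ℚ V) ≤ finrank ℚ (⊥ : Submodule ℚ V) :=
      Submodule.finrank_mono h1
    rw [finrank_top, finrank_bot] at h2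
    omega
  obtain ⟨l₀, hl₀, q, hmin⟩ := exists_top hS hspan he0
  have hl₀0 : l₀ ≠ 0 := by
    intro h
    have := hl₀.1
    rw [h] at this
    simp at this
  have hH := Module.Dual.finrank_ker_add_one_of_ne_zero hl₀0
  obtain ⟨k, hk, hpen⟩ := exists_min_gd hS hl₀ hmin (by omega)
  set K : Submodule ℚ V := LinearMap.ker l₀ ⊓ LinearMap.ker k with hKdef
  -- `s₀`
  obtain ⟨s₀, hs₀, hl₀s₀, hks₀⟩ : ∃ s₀ ∈ S, l₀ s₀ = 0 ∧ k s₀ ≠ 0 := by
    by_contra hcon
    push Not at hcon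
    have h1 : LinearMap.ker l₀ ≤ LinearMap.ker k := by
      rw [← hl₀.2]
      exact span_le.mpr fun x hx => hcon x hx.1 hx.2
    apply hk.2.2.2
    ext x
    have h2 : x - l₀ x • e ∈ LinearMap.ker l₀ := by
      rw [LinearMap.mem_ker, map_sub, map_smul, hl₀.1, smul_eq_mul, mul_one, sub_self]
    have h3 : k (x - l₀ x • e) = 0 := h1 h2
    rw [map_sub, map_smul, hk.1, smul_zero, sub_zero] at h3
    rw [h3, LinearMap.zero_apply]
  have hKfr : finrank ℚ K + 1 = finrank ℚ (LinearMap.ker l₀) := finrank_ker_inf hks₀ hl₀s₀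
  have hKsp : span ℚ (S ∩ K) = K := hk.2.1
  -- the two sets
  let Y : Set V := {y | ∃ s ∈ S, l₀ s ≠ 0 ∧ k s = 0 ∧ y = s - l₀ s • e}
  let Z : Set V := {z | ∃ t ∈ S, l₀ t = 0 ∧ k t ≠ 0 ∧ z = t - (k t / k s₀) • s₀}
  have hYK : Y ⊆ K := by
    rintro y ⟨s, hs, hls, hks, rfl⟩
    refine ⟨?_, ?_⟩
    · show l₀ (s - l₀ s • e) = 0
      rw [map_sub, map_smul, hl₀.1, smul_eq_mul]; ring
    · show k (s - l₀ s • e) = 0
      rw [map_sub, map_smul, hk.1, hks, smul_eq_mul]; ring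
  have hZK : Z ⊆ K := by
    rintro z ⟨t, ht, hlt, hkt, rfl⟩
    refine ⟨?_, ?_⟩
    · show l₀ (t - (k t / k s₀) • s₀) = 0
      rw [map_sub, map_smul, hlt, hl₀s₀, smul_eq_mul]; ring
    · show k (t - (k t / k s₀) • s₀) = 0
      rw [map_sub, map_smul, smul_eq_mul]
      field_simp
      ring
  have hYZ : ∀ y ∈ Y, ∀ z ∈ Z, ¬ Lk S K y z := by
    rintro y ⟨s, hs, hls, hks, rfl⟩ z ⟨t, ht, hlt, hkt, rfl⟩ ⟨G, hG, hyG, hzG⟩
    have h1 := hpen G hG s hs hls hks hyG s₀ hs₀ hl₀s₀ hks₀ t ht hlt hkt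
    obtain ⟨g, hg, y', hy', hgy⟩ := mem_sup.mp h1
    obtain ⟨c, rfl⟩ := mem_span_singleton.mp hy'
    have hkg : k g = 0 := (hG.1 hg).2
    apply hzG
    have h2 : k t = c * k s₀ := by rw [← hgy, map_add, map_smul, hkg, smul_eq_mul, zero_add]
    have h3 : k t / k s₀ = c := by rw [h2]; field_simp
    rw [h3, ← hgy, add_sub_cancel_right]
    exact hg
  obtain ⟨P, B, hdis, hsup, hPs, hBs, hcov, hYP, hZB⟩ := decomp hS hKsp hYK hZK hYZ
  have hPK : P ≤ K := hsup ▸ le_sup_left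
  have hBK : B ≤ K := hsup ▸ le_sup_right
  have hdim : finrank ℚ P + finrank ℚ B = finrank ℚ K := by
    have h1 := Submodule.finrank_sup_add_finrank_inf_eq P B
    rw [hsup, hdis.eq_bot, finrank_bot] at h1
    omega
  have hs₀B : s₀ ∉ B := fun h => hks₀ (hBK h).2
  have heP : e ∉ P := by
    intro h
    have h1 : l₀ e = 0 := (hPK h).1
    rw [hl₀.1] at h1
    exact one_ne_zero h1
  -- the first hyperplane
  have hdisH : Disjoint P (B ⊔ span ℚ {s₀}) := by
    rw [Submodule.disjoint_def]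
    intro w hwP hw
    obtain ⟨b, hb, y, hy, hby⟩ := mem_sup.mp hw
    obtain ⟨c, rfl⟩ := mem_span_singleton.mp hy
    have h1 : k w = 0 := (hPK hwP).2
    have h2 : k b = 0 := (hBK hb).2
    have h3 : c = 0 := by
      rw [← hby, map_add, map_smul, h2, smul_eq_mul, zero_add] at h1
      exact (mul_eq_zero.mp h1).resolve_right hks₀
    have h4 : w = b := by rw [← hby, h3, zero_smul, add_zero]
    rw [Submodule.disjoint_def] at hdis
    exact hdis w hwP (h4 ▸ hb)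
  have hsupH : ∀ s ∈ S, s ∈ P ⊔ (B ⊔ span ℚ {s₀}) → s ∈ P ∨ s ∈ B ⊔ span ℚ {s₀} := by
    intro s hs hsm
    have hls : l₀ s = 0 := by
      have h1 : P ⊔ (B ⊔ span ℚ {s₀}) ≤ LinearMap.ker l₀ :=
        sup_le (fun x hx => (hPK hx).1) (sup_le (fun x hx => (hBK hx).1)
          ((span_singleton_le_iff_mem _ _).mpr hl₀s₀))
      exact h1 hsm
    by_cases hks : k s = 0
    · rcases hcov s hs ⟨hls, hks⟩ with h | h
      · exact Or.inl h
      · exact Or.inr (mem_sup_left h)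
    · right
      have h1 : s - (k s / k s₀) • s₀ ∈ B := hZB ⟨s, hs, hls, hks, rfl⟩
      have h2 : s = (s - (k s / k s₀) • s₀) + (k s / k s₀) • s₀ := by abel
      rw [h2]
      exact add_mem (mem_sup_left h1)
        (mem_sup_right (smul_mem _ _ (mem_span_singleton_self s₀)))
  have hBs₀ := spanned_sup hBs (spanned_single hs₀)
  have hfrH : finrank ℚ (B ⊔ span ℚ {s₀} : Submodule ℚ V) = finrank ℚ B + 1 :=
    finrank_sup_single hs₀B
  -- the second hyperplane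
  have hdisM : Disjoint (P ⊔ span ℚ {e}) B := by
    rw [Submodule.disjoint_def]
    intro w hw hwB
    obtain ⟨p, hp, y, hy, hpy⟩ := mem_sup.mp hw
    obtain ⟨c, rfl⟩ := mem_span_singleton.mp hy
    have h1 : l₀ w = 0 := (hBK hwB).1
    have h2 : l₀ p = 0 := (hPK hp).1
    have h3 : c = 0 := by
      rw [← hpy, map_add, map_smul, h2, hl₀.1, smul_eq_mul, zero_add, mul_one] at h1
      exact h1
    have h4 : w = p := by rw [← hpy, h3, zero_smul, add_zero]
    rw [Submodule.disjoint_def] at hdis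
    exact hdis w (h4 ▸ hp) hwB
  have hsupM : ∀ s ∈ S, s ∈ (P ⊔ span ℚ {e}) ⊔ B → s ∈ P ⊔ span ℚ {e} ∨ s ∈ B := by
    intro s hs hsm
    have hks : k s = 0 := by
      have h1 : (P ⊔ span ℚ {e}) ⊔ B ≤ LinearMap.ker k :=
        sup_le (sup_le (fun x hx => (hPK hx).2) ((span_singleton_le_iff_mem _ _).mpr hk.1))
          (fun x hx => (hBK hx).2)
      exact h1 hsm
    by_cases hls : l₀ s = 0
    · rcases hcov s hs ⟨hls, hks⟩ with h | h
      · exact Or.inl (mem_sup_left h)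
      · exact Or.inr h
    · left
      have h1 : s - l₀ s • e ∈ P := hYP ⟨s, hs, hls, hks, rfl⟩
      have h2 : s = (s - l₀ s • e) + l₀ s • e := by abel
      rw [h2]
      exact add_mem (mem_sup_left h1) (mem_sup_right (smul_mem _ _ (mem_span_singleton_self e)))
  have hPe := spanned_sup hPs (spanned_single heS)
  have hfrM : finrank ℚ (P ⊔ span ℚ {e} : Submodule ℚ V) = finrank ℚ P + 1 :=
    finrank_sup_single heP
  have hbot : ∀ Q : Submodule ℚ V, finrank ℚ Q ≠ 0 → Q ≠ ⊥ := by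
    rintro Q h rfl
    exact h (finrank_bot ℚ V)
  rcases Nat.even_or_odd (finrank ℚ P) with hev | hodd
  · by_cases h0 : finrank ℚ P = 0 ∨ Odd (finrank ℚ V)
    · refine ⟨P ⊔ span ℚ {e}, B, hdisM, hPe, hBs, ?_, ?_, ?_, hsupM⟩
      · apply hbot
        rcases h0 with h0 | h0
        · omega
        · intro h1
          obtain ⟨a, ha⟩ := hev
          obtain ⟨b, hb⟩ := h0
          omega
      · rw [hfrM]
        exact hev.add_one
      · omega
    · push Not at h0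
      refine ⟨B ⊔ span ℚ {s₀}, P, hdisH.symm, hBs₀, hPs, hbot P h0.1, ?_, ?_, ?_⟩
      · obtain ⟨a, ha⟩ := hev
        have h1 : Even (finrank ℚ V) := Nat.not_odd_iff_even.mp h0.2
        obtain ⟨b, hb⟩ := h1
        refine ⟨b - a - 1, ?_⟩
        omega
      · omega
      · intro s hs hsm
        rw [sup_comm] at hsm
        exact (hsupH s hs hsm).symm
  · refine ⟨P, B ⊔ span ℚ {s₀}, hdisH, hPs, hBs₀, ?_, hodd, ?_, hsupH⟩
    · apply hbot
      omega
    · omega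

end Pool.Agent.B5.E1
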